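import Pool.Agent.Lib.MP_9f84a9_co.StmA

/-!
# MP_9f84a9_co, piece [GP A2]: the chain metric is a pseudometric
-/

set_option autoImplicit false

namespace Pool.Agent.Lib.MP_9f84a9_co

open Finset Filter Topology

namespace A2

variable {N : ℕ} {K : Cx N} {c : Pt N → Pt N → ℝ}

theorem nonneg (hc : IsCost c) {x y : Pt N} {k : ℕ} {r : ℝ} (h : Path K c x y k r) : 0 ≤ r := by
  induction h with
  | nil x _ => exact le_rfl
  | cons x y z k r _ _ ih => exact add_nonneg (hc.nonneg x y) ih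

theorem right_in {x y : Pt N} {k : ℕ} {r : ℝ} (h : Path K c x y k r) : In K y := by
  induction h with
  | nil x hx => exact hx
  | cons x y z k r _ _ ih => exact ih

theorem append {x y z : Pt N} {k k' : ℕ} {r r' : ℝ} (h : Path K c x y k r)
    (h' : Path K c y z k' r') : Path K c x z (k + k') (r + r') := by
  induction h with
  | nil x _ =>
    rw [Nat.zero_add, zero_add]
    exact h'
  | cons x w y k r hs _ ih =>
    have h1 := Path.cons (c := c) x w z (k + k') (r + r') hs (ih h')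
    rw [Nat.add_right_comm, add_assoc (c x w)]
    exact h1

theorem symm (hc : IsCost c) {x y : Pt N} {k : ℕ} {r : ℝ} (h : Path K c x y k r) :
    Path K c y x k r := by
  induction h with
  | nil x hx => exact Path.nil x hx
  | cons x w y k r hs _ ih =>
    have hs' : Stp K w x := by
      obtain ⟨h1, h2, f, hf, h3, h4⟩ := hs
      exact ⟨h2, h1, f, hf, h4, h3⟩
    have h1 : Path K c w x (0 + 1) (c w x + 0) := Path.cons w x x 0 0 hs' (Path.nil x hs.1)
    have h2 := append ih h1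
    rw [add_zero, hc.symm w x, add_comm r, Nat.zero_add] at h2
    exact h2

theorem bdd (hc : IsCost c) (x y : Pt N) : BddBelow {r : ℝ | ∃ k, Path K c x y k r} :=
  ⟨0, fun _ ⟨_, h⟩ => nonneg hc h⟩

theorem le_of (hc : IsCost c) {x y : Pt N} {k : ℕ} {r : ℝ} (h : Path K c x y k r) :
    dK K c x y ≤ r := csInf_le (bdd hc x y) ⟨k, h⟩

theorem dK_nonneg (hc : IsCost c) (x y : Pt N) : 0 ≤ dK K c x y :=
  Real.sInf_nonneg fun _ ⟨_, h⟩ => nonneg hc h

theorem tri (hc : IsCost c) (hK : Cn K) {x y z : Pt N} (hx : In K x) (hy : In K y)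
    (hz : In K z) : dK K c x z ≤ dK K c x y + dK K c y z := by
  refine le_of_forall_pos_le_add fun ε hε => ?_
  obtain ⟨k1, r1, h1⟩ := hK c x y hx hy
  obtain ⟨k2, r2, h2⟩ := hK c y z hy hz
  obtain ⟨a, ⟨ka, ha⟩, hal⟩ := exists_lt_of_csInf_lt
    (s := {r : ℝ | ∃ k, Path K c x y k r}) ⟨r1, k1, h1⟩ (lt_add_of_pos_right _ (half_pos hε))
  obtain ⟨b, ⟨kb, hb⟩, hbl⟩ := exists_lt_of_csInf_lt
    (s := {r : ℝ | ∃ k, Path K c y z k r}) ⟨r2, k2, h2⟩ (lt_add_of_pos_right _ (half_pos hε))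
  have h3 := le_of hc (append ha hb)
  have h4 : a < dK K c x y + ε / 2 := hal
  have h5 : b < dK K c y z + ε / 2 := hbl
  linarith

end A2

theorem t_A2 : S_A2 := by
  intro N K c hc hK
  refine ⟨A2.dK_nonneg hc, ?_, ?_, ?_, ?_⟩
  · intro x hx
    exact le_antisymm (A2.le_of hc (Path.nil x hx)) (A2.dK_nonneg hc x x)
  · intro x y
    unfold dK
    congr 1
    ext r
    exact ⟨fun ⟨k, h⟩ => ⟨k, A2.symm hc h⟩, fun ⟨k, h⟩ => ⟨k, A2.symm hc h⟩⟩
  · intro x y z hx hy hz
    exact A2.tri hc hK hx hy hz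
  · intro x y hs
    have h := A2.le_of hc (Path.cons x y y 0 0 hs (Path.nil y hs.2.1))
    rw [add_zero] at h
    exact h

end Pool.Agent.Lib.MP_9f84a9_co
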