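import Pool.Agent.Lib.MP_9f84a9_co.StmA

/-!
# MP_9f84a9_co, piece [A4]: paths as sequences, short paths
-/

set_option autoImplicit false

namespace Pool.Agent.Lib.MP_9f84a9_co

open Finset Filter Topology

namespace A4

variable {N : ℕ} {K : Cx N} {c : Pt N → Pt N → ℝ}

theorem toSeq {x y : Pt N} {k : ℕ} {r : ℝ} (h : Path K c x y k r) :
    In K x ∧ ∃ u : ℕ → Pt N, u 0 = x ∧ u k = y ∧ (∀ i < k, Stp K (u i) (u (i + 1))) ∧
      r = ∑ i ∈ range k, c (u i) (u (i + 1)) := by
  induction h with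
  | nil x hx => exact ⟨hx, fun _ => x, rfl, rfl, fun i hi => absurd hi (Nat.not_lt_zero i), by simp⟩
  | cons x y z k r hs _ ih =>
    obtain ⟨_, u, h0, hk, hst, hr⟩ := ih
    refine ⟨hs.1, fun i => Nat.casesOn i x u, rfl, hk, ?_, ?_⟩
    · intro i hi
      cases i with
      | zero => show Stp K x (u 0); rw [h0]; exact hs
      | succ i => exact hst i (by omega)
    · rw [Finset.sum_range_succ']
      show c x y + r = ∑ i ∈ range k, c (u i) (u (i + 1)) + c x (u 0)
      rw [h0, hr]; ring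

theorem ofSeq (k : ℕ) : ∀ (u : ℕ → Pt N), In K (u 0) → (∀ i < k, Stp K (u i) (u (i + 1))) →
    Path K c (u 0) (u k) k (∑ i ∈ range k, c (u i) (u (i + 1))) := by
  induction k with
  | zero => intro u h _; simpa using Path.nil (K := K) (c := c) (u 0) h
  | succ k ih =>
    intro u h hst
    have h1 := ih (fun i => u (i + 1)) (hst 0 (by omega)).2.1 (fun i hi => hst (i + 1) (by omega))
    have h2 := Path.cons (u 0) _ _ _ _ (hst 0 (by omega)) h1
    rw [Finset.sum_range_succ', add_comm (∑ i ∈ range k, c (u (i + 1)) (u (i + 1 + 1)))]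
    exact h2

theorem seq_iff (x y : Pt N) (k : ℕ) (r : ℝ) : Path K c x y k r ↔
    In K x ∧ ∃ u : ℕ → Pt N, u 0 = x ∧ u k = y ∧ (∀ i < k, Stp K (u i) (u (i + 1))) ∧
      r = ∑ i ∈ range k, c (u i) (u (i + 1)) := by
  constructor
  · exact toSeq
  · rintro ⟨h, u, rfl, rfl, hst, rfl⟩
    exact ofSeq k u h hst

theorem tri_sum (hc : IsCost c) (u : ℕ → Pt N) (a b : ℕ) (h : a ≤ b) :
    c (u a) (u b) ≤ ∑ t ∈ Ico a b, c (u t) (u (t + 1)) := by
  induction b, h using Nat.le_induction with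
  | base => rw [hc.self]; simp
  | succ b hab ih =>
    rw [Finset.sum_Ico_succ_top hab]
    exact (hc.tri _ (u b) _).trans (by linarith)

/-- removing the steps between two uses of the same facet -/
theorem cut (hc : IsCost c) (u : ℕ → Pt N) (k : ℕ) (h0 : In K (u 0))
    (hst : ∀ i < k, Stp K (u i) (u (i + 1))) (i j : ℕ) (hij : i < j) (hjk : j < k)
    (hs : Stp K (u i) (u (j + 1))) :
    ∃ k' < k, ∃ r' ≤ ∑ i ∈ range k, c (u i) (u (i + 1)), Path K c (u 0) (u k) k' r' := by
  obtain ⟨m, rfl⟩ : ∃ m, k = j + 1 + m := ⟨k - (j + 1), by omega⟩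
  obtain ⟨v, hv⟩ : ∃ v : ℕ → Pt N, v = fun t => if t ≤ i then u t else u (t + (j - i)) := ⟨_, rfl⟩
  have hv1 : ∀ t ≤ i, v t = u t := by
    intro t ht; rw [hv]; simp [ht]
  have hv2 : ∀ t, i < t → v t = u (t + (j - i)) := by
    intro t ht; rw [hv]; simp [not_le.2 ht]
  have hend : v (i + 1 + m) = u (j + 1 + m) := by
    rw [hv2 _ (by omega)]; congr 1; omega
  have hstv : ∀ t < i + 1 + m, Stp K (v t) (v (t + 1)) := by
    intro t ht
    rcases lt_trichotomy t i with h | h | h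
    · rw [hv1 t h.le, hv1 (t + 1) h]; exact hst t (by omega)
    · rw [h, hv1 i le_rfl, hv2 (i + 1) (by omega)]
      have : i + 1 + (j - i) = j + 1 := by omega
      rw [this]; exact hs
    · rw [hv2 t h, hv2 (t + 1) (by omega)]
      have : t + 1 + (j - i) = t + (j - i) + 1 := by omega
      rw [this]; exact hst _ (by omega)
  have hp := ofSeq (c := c) (i + 1 + m) v (by rw [hv1 0 (by omega)]; exact h0) hstv
  rw [hv1 0 (by omega), hend] at hp
  refine ⟨i + 1 + m, by omega, _, ?_, hp⟩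
  rw [Finset.sum_range_add, Finset.sum_range_add (fun i => c (u i) (u (i + 1))) (j + 1) m,
    Finset.sum_range_succ,
    ← Finset.sum_range_add_sum_Ico (fun i => c (u i) (u (i + 1))) (show i ≤ j + 1 by omega)]
  have e1 : ∑ t ∈ range i, c (v t) (v (t + 1)) = ∑ t ∈ range i, c (u t) (u (t + 1)) := by
    apply Finset.sum_congr rfl
    intro t ht
    have := Finset.mem_range.1 ht
    rw [hv1 t (by omega), hv1 (t + 1) (by omega)]
  have e2 : ∑ t ∈ range m, c (v (i + 1 + t)) (v (i + 1 + t + 1)) =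
      ∑ t ∈ range m, c (u (j + 1 + t)) (u (j + 1 + t + 1)) := by
    apply Finset.sum_congr rfl
    intro t _
    rw [hv2 _ (by omega), hv2 _ (by omega)]
    have a1 : i + 1 + t + (j - i) = j + 1 + t := by omega
    have a2 : i + 1 + t + 1 + (j - i) = j + 1 + t + 1 := by omega
    rw [a1, a2]
  have e3 : c (v i) (v (i + 1)) ≤ ∑ t ∈ Ico i (j + 1), c (u t) (u (t + 1)) := by
    rw [hv1 i le_rfl, hv2 (i + 1) (by omega)]
    have : i + 1 + (j - i) = j + 1 := by omega
    rw [this]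
    exact tri_sum hc u i (j + 1) (by omega)
  rw [e1, e2]
  linarith

theorem short (hc : IsCost c) (k : ℕ) : ∀ (x y : Pt N) (r : ℝ), Path K c x y k r →
    ∃ k' ≤ K.card, ∃ r' ≤ r, Path K c x y k' r' := by
  induction k using Nat.strong_induction_on with
  | _ k ih =>
    intro x y r h
    by_cases hk : k ≤ K.card
    · exact ⟨k, hk, r, le_rfl, h⟩
    · obtain ⟨hx, u, rfl, rfl, hst, rfl⟩ := toSeq h
      have hf : ∀ i : ℕ, ∃ f : Finset (Fin N), i < k → f ∈ K ∧ Sup (u i) f ∧ Sup (u (i + 1)) f := by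
        intro i
        by_cases hi : i < k
        · obtain ⟨_, _, f, h1, h2, h3⟩ := hst i hi
          exact ⟨f, fun _ => ⟨h1, h2, h3⟩⟩
        · exact ⟨∅, fun h => absurd h hi⟩
      choose f hf using hf
      obtain ⟨a, ha, b, hb, hab, hfab⟩ := Finset.exists_ne_map_eq_of_card_lt_of_maps_to
        (s := range k) (t := K) (f := f) (by rw [Finset.card_range]; omega)
        (fun i hi => (hf i (Finset.mem_range.1 hi)).1)
      obtain ⟨i, j, hij, hj, hfij⟩ : ∃ i j, i < j ∧ j < k ∧ f i = f j := by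
        rcases lt_or_gt_of_ne hab with h1 | h1
        · exact ⟨a, b, h1, Finset.mem_range.1 hb, hfab⟩
        · exact ⟨b, a, h1, Finset.mem_range.1 ha, hfab.symm⟩
      have hi' := hf i (hij.trans hj)
      have hj' := hf j hj
      have hs : Stp K (u i) (u (j + 1)) :=
        ⟨(hst i (hij.trans hj)).1, (hst j hj).2.1, f i, hi'.1, hi'.2.1, by rw [hfij]; exact hj'.2.2⟩
      obtain ⟨k', hk', r', hr', hp⟩ := cut hc u k hx hst i j hij hj hs
      obtain ⟨k'', h1, r'', h2, h3⟩ := ih k' hk' _ _ _ hp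
      exact ⟨k'', h1, r'', h2.trans hr', h3⟩

end A4

theorem t_A4 : S_A4 := by
  intro N K c hc
  exact ⟨fun x y k r => A4.seq_iff x y k r, fun x y k r h => A4.short hc k x y r h⟩

end Pool.Agent.Lib.MP_9f84a9_co
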