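import Pool.Agent.Lib.MP_9f84a9_co.StmA

/-!
# MP_9f84a9_co, piece A5: change of the positions
-/

set_option autoImplicit false

namespace Pool.Agent.Lib.MP_9f84a9_co

open Finset Filter Topology

namespace A5

private theorem oneSided (hA1 : S_A1) (hA4 : S_A4) (N : ℕ) (K : Cx N) (p p' : Fin N → E) (ε : ℝ)
    (hC : Cn K) (hd : ∀ v, dist (p v) (p' v) ≤ ε) (x y : Pt N) (hx : In K x) (hy : In K y) :
    dK K (ce p') x y ≤ dK K (ce p) x y + 2 * K.card * ε := by
  obtain ⟨h1, -, -, h4, -, -, -, -, h9⟩ := hA1 N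
  -- `ε ≥ 0`
  have hε : 0 ≤ ε := by
    have hN : ∃ v : Fin N, True := by
      by_contra hne
      have hs : ∑ v, x v = 0 := by
        apply Finset.sum_eq_zero
        intro v _
        exact absurd ⟨v, trivial⟩ hne
      rw [hx.2.1] at hs
      exact one_ne_zero hs
    obtain ⟨v, -⟩ := hN
    exact le_trans dist_nonneg (hd v)
  apply le_of_forall_pos_le_add
  intro ε' hε'
  have hne : {r : ℝ | ∃ k, Path K (ce p) x y k r}.Nonempty := by
    obtain ⟨k, r, hk⟩ := hC (ce p) x y hx hy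
    exact ⟨r, k, hk⟩
  obtain ⟨r, ⟨k, hk⟩, hr⟩ := exists_lt_of_csInf_lt hne
    (lt_add_of_pos_right (sInf {r : ℝ | ∃ k, Path K (ce p) x y k r}) hε')
  obtain ⟨k', hk', r', hr', hP⟩ := (hA4 N K (ce p) (h1 p)).2 x y k r hk
  obtain ⟨-, u, hu0, huk, hst, hrs⟩ := ((hA4 N K (ce p) (h1 p)).1 x y k' r').1 hP
  have hP' : Path K (ce p') x y k' (∑ i ∈ range k', ce p' (u i) (u (i + 1))) :=
    ((hA4 N K (ce p') (h1 p')).1 x y k' _).2 ⟨hx, u, hu0, huk, hst, rfl⟩
  have hbd : BddBelow {r : ℝ | ∃ k, Path K (ce p') x y k r} := by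
    refine ⟨0, ?_⟩
    rintro s ⟨m, hm⟩
    obtain ⟨-, w, -, -, -, hs⟩ := ((hA4 N K (ce p') (h1 p')).1 x y m s).1 hm
    rw [hs]
    exact Finset.sum_nonneg (fun i _ => (h1 p').nonneg _ _)
  have hle : dK K (ce p') x y ≤ ∑ i ∈ range k', ce p' (u i) (u (i + 1)) :=
    csInf_le hbd ⟨k', hP'⟩
  have hstep : ∀ i ∈ range k', ce p' (u i) (u (i + 1)) ≤ ce p (u i) (u (i + 1)) + 2 * ε := by
    intro i hi
    have hi' : i < k' := Finset.mem_range.1 hi
    obtain ⟨ha, hb⟩ := h4 K (u i) (u (i + 1)) (hst i hi')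
    have e1 := h9 p p' (u i) ε hd ha.1 ha.2.1
    have e2 := h9 p p' (u (i + 1)) ε hd hb.1 hb.2.1
    have t1 := dist_triangle (pos p' (u i)) (pos p (u i)) (pos p' (u (i + 1)))
    have t2 := dist_triangle (pos p (u i)) (pos p (u (i + 1))) (pos p' (u (i + 1)))
    rw [dist_comm (pos p' (u i)) (pos p (u i))] at t1
    simp only [ce]
    linarith
  have hsum : ∑ i ∈ range k', ce p' (u i) (u (i + 1)) ≤ r' + k' * (2 * ε) := by
    calc ∑ i ∈ range k', ce p' (u i) (u (i + 1))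
        ≤ ∑ i ∈ range k', (ce p (u i) (u (i + 1)) + 2 * ε) := Finset.sum_le_sum hstep
      _ = r' + k' * (2 * ε) := by
        rw [Finset.sum_add_distrib, ← hrs, Finset.sum_const, Finset.card_range, nsmul_eq_mul]
  have hcard : (k' : ℝ) * (2 * ε) ≤ K.card * (2 * ε) := by
    apply mul_le_mul_of_nonneg_right
    · exact_mod_cast hk'
    · linarith
  have hfin : r < dK K (ce p) x y + ε' := hr
  linarith

end A5

theorem t_A5 (hA1 : S_A1) (hA4 : S_A4) : S_A5 := by
  intro N K p p' ε hC hd x y hx hy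
  have a := A5.oneSided hA1 hA4 N K p p' ε hC hd x y hx hy
  have b := A5.oneSided hA1 hA4 N K p' p ε hC (fun v => by rw [dist_comm]; exact hd v) x y hx hy
  rw [abs_le]
  constructor <;> linarith

end Pool.Agent.Lib.MP_9f84a9_co
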