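import Pool.Agent.Lib.MP_9f84a9_co.StmA

/-!
# MP_9f84a9_co, piece A7: joint continuity of the chain metric
-/

set_option autoImplicit false

namespace Pool.Agent.Lib.MP_9f84a9_co

open Finset Filter Topology

private theorem A7_stp {N : ℕ} {K : Cx N} {ι : Type} {l : Filter ι} {xf : ι → Pt N} {x : Pt N}
    (hx : Tendsto xf l (𝓝 x)) (hxf : ∀ᶠ i in l, In K (xf i)) (hxK : In K x) :
    ∀ᶠ i in l, Stp K (xf i) x := by
  have h1 : ∀ v : Fin N, ∀ᶠ i in l, x v ≠ 0 → xf i v ≠ 0 := by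
    intro v
    by_cases hv : x v = 0
    · exact Eventually.of_forall fun i h => absurd hv h
    · have h2 : Tendsto (fun i => xf i v) l (𝓝 (x v)) := (tendsto_pi_nhds.mp hx) v
      filter_upwards [h2.eventually_ne hv] with i hi _ using hi
  have h3 : ∀ᶠ i in l, ∀ v : Fin N, x v ≠ 0 → xf i v ≠ 0 := eventually_all.mpr h1
  filter_upwards [h3, hxf] with i hi hK
  obtain ⟨f, hf, hsup⟩ := hK.2.2
  refine ⟨hK, hxK, f, hf, hsup, fun v hv => ?_⟩
  by_contra hne
  exact hi v hne (hsup v hv)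

private theorem A7_pos {N : ℕ} {ι : Type} {l : Filter ι} {pf : ι → Fin N → E} {p : Fin N → E}
    {xf : ι → Pt N} {x : Pt N} (hp : Tendsto pf l (𝓝 p)) (hx : Tendsto xf l (𝓝 x)) :
    Tendsto (fun i => pos (pf i) (xf i)) l (𝓝 (pos p x)) := by
  unfold pos
  exact tendsto_finsetSum _ fun v _ => ((tendsto_pi_nhds.mp hx) v).smul ((tendsto_pi_nhds.mp hp) v)

private theorem A7_ce {N : ℕ} {ι : Type} {l : Filter ι} {pf : ι → Fin N → E} {p : Fin N → E}
    {xf : ι → Pt N} {x : Pt N} (hp : Tendsto pf l (𝓝 p)) (hx : Tendsto xf l (𝓝 x)) :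
    Tendsto (fun i => ce (pf i) (xf i) x) l (𝓝 0) := by
  have h := (A7_pos hp hx).dist (A7_pos hp (tendsto_const_nhds (x := x)))
  rw [dist_self] at h
  exact h

theorem t_A7 (hA1 : S_A1) (hA2 : S_A2) (hA5 : S_A5) : S_A7 := by
  intro N K ι l pf p xf yf x y hC hp hx hy hxf hyf hxK hyK
  rw [tendsto_iff_dist_tendsto_zero]
  have hd : Tendsto (fun i => dist (pf i) p) l (𝓝 0) := tendsto_iff_dist_tendsto_zero.mp hp
  have hlim : Tendsto (fun i => ce (pf i) (xf i) x + ce (pf i) (yf i) y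
      + 2 * (K.card : ℝ) * dist (pf i) p) l (𝓝 0) := by
    have := ((A7_ce hp hx).add (A7_ce hp hy)).add (hd.const_mul (2 * (K.card : ℝ)))
    simpa using this
  refine tendsto_of_tendsto_of_tendsto_of_le_of_le' tendsto_const_nhds hlim
    (Eventually.of_forall fun i => dist_nonneg) ?_
  filter_upwards [A7_stp hx hxf hxK, A7_stp hy hyf hyK, hxf, hyf] with i sx sy ix iy
  obtain ⟨_, _, hsymm, htri, hstep⟩ := hA2 N K (ce (pf i)) ((hA1 N).1 (pf i)) hC
  have e1 := hstep _ _ sx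
  have e2 := hstep _ _ sy
  have e3 := htri (xf i) x (yf i) ix hxK iy
  have e4 := htri x y (yf i) hxK hyK iy
  have e5 := htri x (xf i) y hxK ix hyK
  have e6 := htri (xf i) (yf i) y ix iy hyK
  have e7 := hsymm x (xf i)
  have e8 := hsymm y (yf i)
  have e9 := hA5 N K (pf i) p (dist (pf i) p) hC (fun v => dist_le_pi_dist _ _ v) x y hxK hyK
  rw [abs_le] at e9
  rw [Real.dist_eq, abs_le]
  constructor <;> linarith [e9.1, e9.2]

end Pool.Agent.Lib.MP_9f84a9_co
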