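import Pool.Agent.Lib.MP_9f84a9_co.StmB

/-!
# MP_9f84a9_co, piece B4: facets and vertices, the two sides
-/

set_option autoImplicit false

namespace Pool.Agent.Lib.MP_9f84a9_co

open Finset

namespace B4

variable {N : ℕ}

/-- vertices of the facets -/
theorem fac_sub (P : PT N) : ∀ (a b : Fin N) (f : Finset (Fin N)), f ∈ P.fac a b →
    ∀ v ∈ f, v = a ∨ v = b ∨ v ∈ P.vs := by
  induction P with
  | nil =>
    intro a b f hf
    exact absurd hf (Finset.notMem_empty _)
  | node w l r ihl ihr =>
    intro a b f hf v hv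
    simp only [PT.fac, Finset.mem_insert, Finset.mem_union] at hf
    simp only [PT.vs, List.mem_cons, List.mem_append]
    rcases hf with rfl | hf | hf
    · simp only [Finset.mem_insert, Finset.mem_singleton] at hv
      tauto
    · have := ihl a w f hf v hv
      tauto
    · have := ihr w b f hf v hv
      tauto

/-- every inner vertex is in a facet -/
theorem fac_cov (P : PT N) : ∀ (a b v : Fin N), v ∈ P.vs → ∃ f ∈ P.fac a b, v ∈ f := by
  induction P with
  | nil =>
    intro a b v hv
    exact absurd hv List.not_mem_nil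
  | node w l r ihl ihr =>
    intro a b v hv
    simp only [PT.vs, List.mem_cons, List.mem_append] at hv
    rcases hv with rfl | hv | hv
    · exact ⟨{a, b, v}, by simp [PT.fac], by simp⟩
    · obtain ⟨f, hf, hvf⟩ := ihl a w v hv
      exact ⟨f, by simp [PT.fac, hf], hvf⟩
    · obtain ⟨f, hf, hvf⟩ := ihr w b v hv
      exact ⟨f, by simp [PT.fac, hf], hvf⟩

/-- the facets are triangles -/
theorem fac_card (P : PT N) : ∀ (a b : Fin N), (a :: b :: P.vs).Nodup →
    ∀ f ∈ P.fac a b, f.card = 3 := by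
  induction P with
  | nil =>
    intro a b _ f hf
    exact absurd hf (Finset.notMem_empty _)
  | node w l r ihl ihr =>
    intro a b h f hf
    simp only [PT.vs, List.nodup_cons, List.mem_cons, List.mem_append, not_or,
      List.nodup_append] at h
    simp only [PT.fac, Finset.mem_insert, Finset.mem_union] at hf
    obtain ⟨⟨hab, haw, hal, har⟩, ⟨hbw, hbl, hbr⟩, ⟨hwl, hwr⟩, hl, hr, hlr⟩ := h
    rcases hf with rfl | hf | hf
    · exact Finset.card_eq_three.2 ⟨a, b, w, hab, haw, hbw, rfl⟩
    · apply ihl a w ?_ f hf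
      simp only [List.nodup_cons, List.mem_cons, not_or]
      exact ⟨⟨haw, hal⟩, hwl, hl⟩
    · apply ihr w b ?_ f hf
      simp only [List.nodup_cons, List.mem_cons, not_or]
      exact ⟨⟨fun e => hbw e.symm, hwr⟩, hbr, hr⟩

/-- number of facets -/
theorem fac_num (P : PT N) : ∀ (a b : Fin N), (P.fac a b).card ≤ P.vs.length := by
  induction P with
  | nil => intro a b; simp [PT.fac, PT.vs]
  | node w l r ihl ihr =>
    intro a b
    simp only [PT.fac, PT.vs, List.length_cons, List.length_append]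
    refine (Finset.card_insert_le _ _).trans ?_
    have h1 := Finset.card_union_le (l.fac a w) (r.fac w b)
    have h2 := ihl a w
    have h3 := ihr w b
    omega

theorem K_nil (D : Dsc N) (h : D.P = PT.nil ∧ D.R = PT.nil) : D.K = {{D.a, D.b}} := by
  unfold Dsc.K
  rw [if_pos h]

theorem K_ne (D : Dsc N) (h : ¬ (D.P = PT.nil ∧ D.R = PT.nil)) :
    D.K = D.P.fac D.a D.b ∪ D.R.fac D.b D.a := by
  unfold Dsc.K
  rw [if_neg h]

/-- the ends of the centre edge are in a facet -/
theorem base (D : Dsc N) : ∃ g ∈ D.K, ({D.a, D.b} : Finset (Fin N)) ⊆ g := by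
  by_cases h : D.P = PT.nil ∧ D.R = PT.nil
  · exact ⟨{D.a, D.b}, by rw [K_nil D h]; exact Finset.mem_singleton_self _, subset_rfl⟩
  · rw [K_ne D h]
    cases hP : D.P with
    | nil =>
      cases hR : D.R with
      | nil => exact absurd ⟨hP, hR⟩ h
      | node w l r =>
        refine ⟨{D.b, D.a, w}, by simp [PT.fac], ?_⟩
        intro x hx
        simp only [Finset.mem_insert, Finset.mem_singleton] at hx ⊢
        tauto
    | node w l r =>
      refine ⟨{D.a, D.b, w}, by simp [PT.fac], ?_⟩
      intro x hx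
      simp only [Finset.mem_insert, Finset.mem_singleton] at hx ⊢
      tauto

/-- one side -/
theorem side (a b : Fin N) (P : PT N) (f : Finset (Fin N)) (hf : f ∈ (Dsc.mk a b P PT.nil).K) :
    (f ∈ P.fac a b ∨ f = {a, b}) ∧ ∀ v ∈ f, v = a ∨ v = b ∨ v ∈ P.vs := by
  by_cases h : P = PT.nil
  · rw [K_nil _ ⟨h, rfl⟩, Finset.mem_singleton] at hf
    have hf' : f = {a, b} := hf
    refine ⟨Or.inr hf', ?_⟩
    rw [hf']
    intro v hv
    simp only [Finset.mem_insert, Finset.mem_singleton] at hv
    tauto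
  · rw [K_ne _ (fun e => h e.1), Finset.mem_union] at hf
    have hf' : f ∈ P.fac a b := hf.resolve_right (Finset.notMem_empty _)
    exact ⟨Or.inl hf', fac_sub P a b f hf'⟩

theorem side' (a b : Fin N) (P : PT N) (f : Finset (Fin N)) (hf : f ∈ P.fac a b) :
    f ∈ (Dsc.mk a b P PT.nil).K := by
  have h : P ≠ PT.nil := by
    rintro rfl
    exact absurd hf (Finset.notMem_empty _)
  rw [K_ne _ (fun e => h e.1), Finset.mem_union]
  exact Or.inl hf

end B4

theorem t_B4 : S_B4 := by
  intro N D hD
  have hnd : (D.a :: D.b :: (D.P.vs ++ D.R.vs)).Nodup := hD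
  have hP : (D.a :: D.b :: D.P.vs).Nodup :=
    hnd.sublist (((List.sublist_append_left D.P.vs D.R.vs).cons_cons D.b).cons_cons D.a)
  have hR' : (D.a :: D.b :: D.R.vs).Nodup :=
    hnd.sublist (((List.sublist_append_right D.P.vs D.R.vs).cons_cons D.b).cons_cons D.a)
  have hR : (D.b :: D.a :: D.R.vs).Nodup := (List.Perm.swap D.b D.a D.R.vs).nodup_iff.1 hR'
  have hvs : ∀ f ∈ D.K, ∀ v ∈ f, v ∈ D.vl := by
    intro f hf v hv
    unfold Dsc.vl
    simp only [List.mem_cons, List.mem_append]
    by_cases h : D.P = PT.nil ∧ D.R = PT.nil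
    · rw [B4.K_nil D h, Finset.mem_singleton] at hf
      rw [hf] at hv
      simp only [Finset.mem_insert, Finset.mem_singleton] at hv
      tauto
    · rw [B4.K_ne D h, Finset.mem_union] at hf
      rcases hf with hf | hf
      · have := B4.fac_sub _ _ _ f hf v hv
        tauto
      · have := B4.fac_sub _ _ _ f hf v hv
        tauto
  have hcov : ∀ v ∈ D.vl, ∃ f ∈ D.K, v ∈ f := by
    intro v hv
    unfold Dsc.vl at hv
    simp only [List.mem_cons, List.mem_append] at hv
    obtain ⟨g, hg, hgs⟩ := B4.base D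
    have hne : ∀ (Q : PT N), v ∈ Q.vs → Q ≠ PT.nil := by
      rintro Q hv rfl
      exact absurd hv List.not_mem_nil
    rcases hv with rfl | rfl | hv | hv
    · exact ⟨g, hg, hgs (by simp)⟩
    · exact ⟨g, hg, hgs (by simp)⟩
    · obtain ⟨f, hf, hvf⟩ := B4.fac_cov D.P D.a D.b v hv
      exact ⟨f, by rw [B4.K_ne D (fun e => hne _ hv e.1)]; exact Finset.mem_union_left _ hf, hvf⟩
    · obtain ⟨f, hf, hvf⟩ := B4.fac_cov D.R D.b D.a v hv
      exact ⟨f, by rw [B4.K_ne D (fun e => hne _ hv e.2)]; exact Finset.mem_union_right _ hf, hvf⟩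
  have hcard : ∀ f ∈ D.K, f.card = 3 ∨ (D.P = PT.nil ∧ D.R = PT.nil ∧ f = {D.a, D.b}) := by
    intro f hf
    by_cases h : D.P = PT.nil ∧ D.R = PT.nil
    · rw [B4.K_nil D h, Finset.mem_singleton] at hf
      exact Or.inr ⟨h.1, h.2, hf⟩
    · rw [B4.K_ne D h, Finset.mem_union] at hf
      left
      rcases hf with hf | hf
      · exact B4.fac_card _ _ _ hP f hf
      · exact B4.fac_card _ _ _ hR f hf
  have hlen : (D.a :: D.b :: (D.P.vs ++ D.R.vs)).length ≤ N := by
    have := hnd.length_le_card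
    rwa [Fintype.card_fin] at this
  have hnum : D.K.card ≤ N := by
    simp only [List.length_cons, List.length_append] at hlen
    by_cases h : D.P = PT.nil ∧ D.R = PT.nil
    · rw [B4.K_nil D h, Finset.card_singleton]
      omega
    · rw [B4.K_ne D h]
      have h1 := Finset.card_union_le (D.P.fac D.a D.b) (D.R.fac D.b D.a)
      have h2 := B4.fac_num D.P D.a D.b
      have h3 := B4.fac_num D.R D.b D.a
      omega
  refine ⟨hvs, hcov, hcard, hnum, ?_, ?_, ?_, ?_, ?_, ?_⟩
  · obtain ⟨g, hg, _⟩ := B4.base D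
    exact ⟨g, hg⟩
  · show (D.a :: D.b :: (D.P.vs ++ [])).Nodup
    rw [List.append_nil]
    exact hP
  · show (D.b :: D.a :: (D.R.vs ++ [])).Nodup
    rw [List.append_nil]
    exact hR
  · intro f hf
    by_cases h : D.P = PT.nil ∧ D.R = PT.nil
    · left
      rw [B4.K_nil D h] at hf
      rw [B4.K_nil (Dsc.mk D.a D.b D.P PT.nil) ⟨h.1, rfl⟩]
      exact hf
    · rw [B4.K_ne D h, Finset.mem_union] at hf
      rcases hf with hf | hf
      · exact Or.inl (B4.side' _ _ _ f hf)
      · exact Or.inr (B4.side' _ _ _ f hf)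
  · intro f hf
    obtain ⟨h1, h2⟩ := B4.side _ _ _ f hf
    refine ⟨?_, h2⟩
    rcases h1 with h1 | rfl
    · have h : D.P ≠ PT.nil := by
        intro e
        rw [e] at h1
        exact absurd h1 (Finset.notMem_empty _)
      exact ⟨f, by rw [B4.K_ne D (fun e => h e.1)]; exact Finset.mem_union_left _ h1, subset_rfl⟩
    · exact B4.base D
  · intro f hf
    obtain ⟨h1, h2⟩ := B4.side _ _ _ f hf
    refine ⟨?_, fun v hv => ?_⟩
    · rcases h1 with h1 | rfl
      · have h : D.R ≠ PT.nil := by
          intro e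
          rw [e] at h1
          exact absurd h1 (Finset.notMem_empty _)
        exact ⟨f, by rw [B4.K_ne D (fun e => h e.2)]; exact Finset.mem_union_right _ h1, subset_rfl⟩
      · obtain ⟨g, hg, hgs⟩ := B4.base D
        exact ⟨g, hg, by rw [Finset.pair_comm]; exact hgs⟩
    · have := h2 v hv
      tauto

end Pool.Agent.Lib.MP_9f84a9_co
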