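import Pool.Agent.Lib.MP_9f84a9_co.StmB

/-!
# MP_9f84a9_co, piece B5: triangulated polygons are connected
-/

set_option autoImplicit false

namespace Pool.Agent.Lib.MP_9f84a9_co

open Finset

namespace B5

variable {N : ℕ}

/-- joined by a path -/
def J (K : Cx N) (c : Pt N → Pt N → ℝ) (x y : Pt N) : Prop := ∃ k r, Path K c x y k r

theorem J.refl {K : Cx N} {c : Pt N → Pt N → ℝ} {x : Pt N} (h : In K x) : J K c x x :=
  ⟨0, 0, Path.nil x h⟩

theorem J.step {K : Cx N} {c : Pt N → Pt N → ℝ} {x y z : Pt N} (h : Stp K x y)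
    (h' : J K c y z) : J K c x z := by
  obtain ⟨k, r, hp⟩ := h'
  exact ⟨k + 1, c x y + r, Path.cons x y z k r h hp⟩

theorem J.one {K : Cx N} {c : Pt N → Pt N → ℝ} {x y : Pt N} (h : Stp K x y) : J K c x y :=
  J.step h (J.refl h.2.1)

theorem J.trans {K : Cx N} {c : Pt N → Pt N → ℝ} {x y z : Pt N} (h : J K c x y)
    (h' : J K c y z) : J K c x z := by
  obtain ⟨k, r, hp⟩ := h
  induction hp with
  | nil x hx => exact h'
  | cons x y w k r hs _ ih => exact J.step hs (ih h')

theorem Stp.symm' {K : Cx N} {x y : Pt N} (h : Stp K x y) : Stp K y x := by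
  obtain ⟨h1, h2, f, hf, h3, h4⟩ := h
  exact ⟨h2, h1, f, hf, h4, h3⟩

theorem J.symm {K : Cx N} {c : Pt N → Pt N → ℝ} {x y : Pt N} (h : J K c x y) : J K c y x := by
  obtain ⟨k, r, hp⟩ := h
  induction hp with
  | nil x hx => exact J.refl hx
  | cons x y w k r hs _ ih => exact J.trans ih (J.one (Stp.symm' hs))

theorem sup_vx (v : Fin N) (f : Finset (Fin N)) (h : v ∈ f) : Sup (vx v) f := by
  intro w hw
  unfold vx
  rw [Pi.single_eq_of_ne]
  rintro rfl
  exact hw h

theorem in_vx (K : Cx N) (v : Fin N) (f : Finset (Fin N)) (hf : f ∈ K) (h : v ∈ f) :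
    In K (vx v) := by
  refine ⟨fun w => ?_, ?_, f, hf, sup_vx v f h⟩
  · unfold vx
    by_cases e : w = v
    · subst e
      rw [Pi.single_eq_same]
      exact zero_le_one
    · rw [Pi.single_eq_of_ne e]
  · unfold vx
    rw [Finset.sum_pi_single']
    simp

/-- all points of one side are joined to the first base vertex -/
theorem side (K : Cx N) (c : Pt N → Pt N → ℝ) (P : PT N) : ∀ (a b : Fin N), P.fac a b ⊆ K →
    ∀ f ∈ P.fac a b, ∀ x, In K x → Sup x f → J K c x (vx a) := by
  induction P with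
  | nil =>
    intro a b _ f hf
    exact absurd hf (Finset.notMem_empty _)
  | node w l r ihl ihr =>
    intro a b hK f hf x hx hs
    simp only [PT.fac, Finset.mem_insert, Finset.mem_union] at hf
    have htop : ({a, b, w} : Finset (Fin N)) ∈ K := hK (by simp [PT.fac])
    have hl : l.fac a w ⊆ K := fun g hg => hK (by simp [PT.fac, hg])
    have hr : r.fac w b ⊆ K := fun g hg => hK (by simp [PT.fac, hg])
    rcases hf with rfl | hf | hf
    · exact J.one ⟨hx, in_vx K a _ htop (by simp), _, htop, hs, sup_vx a _ (by simp)⟩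
    · exact ihl a w hl f hf x hx hs
    · refine (ihr w b hr f hf x hx hs).trans (J.one ?_)
      exact ⟨in_vx K w _ htop (by simp), in_vx K a _ htop (by simp), _, htop,
        sup_vx w _ (by simp), sup_vx a _ (by simp)⟩

end B5

theorem t_B5 : S_B5 := by
  intro N D _ c x y hx hy
  have key : ∀ z, In D.K z → B5.J D.K c z (vx D.a) := by
    intro z hz
    obtain ⟨h1, h2, f, hf, hs⟩ := hz
    have hz : In D.K z := ⟨h1, h2, f, hf, hs⟩
    by_cases h : D.P = PT.nil ∧ D.R = PT.nil
    · have hK : D.K = {{D.a, D.b}} := by unfold Dsc.K; rw [if_pos h]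
      have hf' := hf
      rw [hK, Finset.mem_singleton] at hf'
      have ha : D.a ∈ f := by rw [hf']; simp
      exact B5.J.one ⟨hz, B5.in_vx _ _ f hf ha, f, hf, hs, B5.sup_vx _ f ha⟩
    · have hK : D.K = D.P.fac D.a D.b ∪ D.R.fac D.b D.a := by unfold Dsc.K; rw [if_neg h]
      have hf' := hf
      rw [hK, Finset.mem_union] at hf'
      rcases hf' with hf' | hf'
      · exact B5.side D.K c D.P D.a D.b (by rw [hK]; exact Finset.subset_union_left) f hf' z hz hs
      · refine (B5.side D.K c D.R D.b D.a (by rw [hK]; exact Finset.subset_union_right) f hf' z hz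
          hs).trans ?_
        obtain ⟨g, hg, hga, hgb⟩ : ∃ g ∈ D.K, D.a ∈ g ∧ D.b ∈ g := by
          cases hR : D.R with
          | nil =>
            rw [hR] at hf'
            exact absurd hf' (Finset.notMem_empty _)
          | node w l r =>
            refine ⟨{D.b, D.a, w}, ?_, by simp, by simp⟩
            rw [hK, hR]
            simp [PT.fac]
        exact B5.J.one ⟨B5.in_vx _ _ g hg hgb, B5.in_vx _ _ g hg hga, g, hg, B5.sup_vx _ g hgb,
          B5.sup_vx _ g hga⟩
  exact (key x hx).trans (key y hy).symm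

end Pool.Agent.Lib.MP_9f84a9_co
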