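import Pool.Agent.Lib.MP_9f84a9_co.StmX

/-!
# MP_9f84a9_co, [X2]: facts on the edges of a symbolic piece
-/

set_option autoImplicit false

namespace Pool.Agent.Lib.MP_9f84a9_co

open Finset

namespace X2

variable {N k : ℕ}

theorem top_real (y : Dat N k) (A : SNet N k) : (A.real y.2).top = ipt y A.top := by
  cases A <;> rfl

theorem leaves_real (z : Fin k → Pt N) (A : SNet N k) : (A.real z).leaves = A.leaves := by
  induction A with
  | leaf v => rfl
  | node i l r hl hr => simp [SNet.real, Net.leaves, SNet.leaves, hl, hr]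

theorem nodes_real (z : Fin k → Pt N) (A : SNet N k) : (A.real z).nodes = A.names.map z := by
  induction A with
  | leaf v => rfl
  | node i l r hl hr => simp [SNet.real, Net.nodes, SNet.names, hl, hr]

theorem len_real (y : Dat N k) (d : Pt N → Pt N → ℝ) (A : SNet N k) :
    (A.real y.2).len d = (A.edges.map fun e => d (ipt y e.1) (ipt y e.2)).sum := by
  induction A with
  | leaf v => simp [SNet.real, Net.len, SNet.edges]
  | node i l r hl hr =>
    have h : ipt y (Sum.inr i) = y.2 i := rfl
    simp only [SNet.real, Net.len, SNet.edges, List.map_cons, List.map_append, List.sum_cons,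
      List.sum_append, hl, hr, top_real, h]
    ring

theorem edges_length (A : SNet N k) : A.edges.length + 2 = 2 * A.leaves.length := by
  induction A with
  | leaf v => rfl
  | node i l r hl hr =>
    simp only [SNet.edges, SNet.leaves, List.length_cons, List.length_append]
    omega

theorem names_length (A : SNet N k) : A.names.length + 1 = A.leaves.length := by
  induction A with
  | leaf v => rfl
  | node i l r hl hr =>
    simp only [SNet.names, SNet.leaves, List.length_cons, List.length_append]
    omega

theorem edges_eqv (y : Dat N k) (A : SNet N k) : ∀ B : Net N, ∀ e ∈ A.edges,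
    ∃ T', Net.Eqv (A.real y.2, B) T' ∧ T'.1.top = ipt y e.1 ∧ T'.2.top = ipt y e.2 := by
  induction A with
  | leaf v => intro B e he; simp [SNet.edges] at he
  | node i l r hl hr =>
    intro B e he
    simp only [SNet.edges, List.mem_cons, List.mem_append] at he
    have hlf : Net.Mv ((SNet.node i l r).real y.2, B)
        (l.real y.2, Net.node (y.2 i) (r.real y.2) B) := Net.Mv.lf _ _ _ _
    have hrt : Net.Mv ((SNet.node i l r).real y.2, B)
        (r.real y.2, Net.node (y.2 i) (l.real y.2) B) := Net.Mv.rt _ _ _ _
    rcases he with rfl | rfl | he | he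
    · exact ⟨(Net.node (y.2 i) (r.real y.2) B, l.real y.2),
        (Relation.ReflTransGen.single hlf).tail (Net.Mv.sw _ _), rfl, top_real y l⟩
    · exact ⟨(Net.node (y.2 i) (l.real y.2) B, r.real y.2),
        (Relation.ReflTransGen.single hrt).tail (Net.Mv.sw _ _), rfl, top_real y r⟩
    · obtain ⟨T', h1, h2⟩ := hl (Net.node (y.2 i) (r.real y.2) B) e he
      exact ⟨T', Relation.ReflTransGen.head hlf h1, h2⟩
    · obtain ⟨T', h1, h2⟩ := hr (Net.node (y.2 i) (l.real y.2) B) e he
      exact ⟨T', Relation.ReflTransGen.head hrt h1, h2⟩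

theorem top_leaf (A : SNet N k) (v : Fin N) (h : A.top = Sum.inl v) : v ∈ A.leaves := by
  cases A with
  | leaf w =>
    simp only [SNet.top, Sum.inl.injEq] at h
    simp [SNet.leaves, h]
  | node i l r => simp [SNet.top] at h

theorem top_name (A : SNet N k) (i : Fin k) (h : A.top = Sum.inr i) : i ∈ A.names := by
  cases A with
  | leaf w => simp [SNet.top] at h
  | node j l r =>
    simp only [SNet.top, Sum.inr.injEq] at h
    simp [SNet.names, h]

theorem edges_ends (A : SNet N k) : ∀ e ∈ A.edges,
    (∀ v, e.1 = Sum.inl v → v ∈ A.leaves) ∧ (∀ v, e.2 = Sum.inl v → v ∈ A.leaves) ∧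
    (∀ i, e.1 = Sum.inr i → i ∈ A.names) ∧ (∀ i, e.2 = Sum.inr i → i ∈ A.names) := by
  induction A with
  | leaf v => intro e he; simp [SNet.edges] at he
  | node i l r hl hr =>
    intro e he
    simp only [SNet.edges, List.mem_cons, List.mem_append] at he
    simp only [SNet.leaves, SNet.names, List.mem_cons, List.mem_append]
    rcases he with rfl | rfl | he | he
    · refine ⟨fun v h => by simp at h, fun v h => Or.inl (top_leaf l v h), fun j h => ?_,
        fun j h => Or.inr (Or.inl (top_name l j h))⟩
      simp only [Sum.inr.injEq] at h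
      exact Or.inl h.symm
    · refine ⟨fun v h => by simp at h, fun v h => Or.inr (top_leaf r v h), fun j h => ?_,
        fun j h => Or.inr (Or.inr (top_name r j h))⟩
      simp only [Sum.inr.injEq] at h
      exact Or.inl h.symm
    · obtain ⟨h1, h2, h3, h4⟩ := hl e he
      exact ⟨fun v h => Or.inl (h1 v h), fun v h => Or.inl (h2 v h),
        fun j h => Or.inr (Or.inl (h3 j h)), fun j h => Or.inr (Or.inl (h4 j h))⟩
    · obtain ⟨h1, h2, h3, h4⟩ := hr e he
      exact ⟨fun v h => Or.inr (h1 v h), fun v h => Or.inr (h2 v h),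
        fun j h => Or.inr (Or.inr (h3 j h)), fun j h => Or.inr (Or.inr (h4 j h))⟩

/-- a leaf is the top or the end of an edge -/
theorem leaf_edge (A : SNet N k) : ∀ v ∈ A.leaves, A.top = Sum.inl v ∨
    ∃ e ∈ A.edges, e.2 = Sum.inl v := by
  induction A with
  | leaf w =>
    intro v hv
    simp only [SNet.leaves, List.mem_singleton] at hv
    left
    rw [hv]
    rfl
  | node i l r hl hr =>
    intro v hv
    simp only [SNet.leaves, List.mem_append] at hv
    right
    simp only [SNet.edges, List.mem_cons, List.mem_append]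
    rcases hv with hv | hv
    · rcases hl v hv with h | ⟨e, he, h⟩
      · exact ⟨(Sum.inr i, l.top), Or.inl rfl, h⟩
      · exact ⟨e, Or.inr (Or.inr (Or.inl he)), h⟩
    · rcases hr v hv with h | ⟨e, he, h⟩
      · exact ⟨(Sum.inr i, r.top), Or.inr (Or.inl rfl), h⟩
      · exact ⟨e, Or.inr (Or.inr (Or.inr he)), h⟩

end X2

/-- [X2] Facts on the edges of a symbolic piece. -/
theorem t_X2 : S_X2 := by
  intro N k t y
  have hlv : (t.real y).lv = t.T.1.leaves ++ t.T.2.leaves := by
    simp only [Piece.lv, SP.real, X2.leaves_real]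
  have e1 := X2.edges_length t.T.1
  have e2 := X2.edges_length t.T.2
  have n1 := X2.names_length t.T.1
  have n2 := X2.names_length t.T.2
  refine ⟨?_, ?_, hlv, ?_, ?_, ?_, ?_, ?_⟩
  · simp only [Piece.L, Net.tlen, SP.edges, List.map_cons, List.map_append, List.sum_cons,
      List.sum_append]
    have h1 : (t.real y).T = (t.T.1.real y.2, t.T.2.real y.2) := rfl
    rw [h1, X2.len_real, X2.len_real, X2.top_real, X2.top_real]
    ring
  · simp only [Piece.nd, SP.real, SP.names, X2.nodes_real, List.map_append]
  · rw [hlv]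
    simp only [SP.edges, List.length_cons, List.length_append]
    omega
  · rw [hlv]
    simp only [SP.names, List.length_append]
    omega
  · intro e he
    simp only [SP.edges, List.mem_cons, List.mem_append] at he
    have h1 : (t.real y).T = (t.T.1.real y.2, t.T.2.real y.2) := rfl
    rw [h1]
    rcases he with rfl | he | he
    · exact ⟨_, Relation.ReflTransGen.refl, X2.top_real y _, X2.top_real y _⟩
    · exact X2.edges_eqv y t.T.1 _ e he
    · obtain ⟨T', h2, h3⟩ := X2.edges_eqv y t.T.2 (t.T.1.real y.2) e he
      exact ⟨T', Relation.ReflTransGen.head (Net.Mv.sw _ _) h2, h3⟩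
  · intro e he
    rw [hlv]
    simp only [SP.edges, List.mem_cons, List.mem_append] at he
    simp only [SP.names, List.mem_append]
    rcases he with rfl | he | he
    · exact ⟨fun v h => Or.inl (X2.top_leaf _ v h), fun v h => Or.inr (X2.top_leaf _ v h),
        fun j h => Or.inl (X2.top_name _ j h), fun j h => Or.inr (X2.top_name _ j h)⟩
    · obtain ⟨h1, h2, h3, h4⟩ := X2.edges_ends _ e he
      exact ⟨fun v h => Or.inl (h1 v h), fun v h => Or.inl (h2 v h),
        fun j h => Or.inl (h3 j h), fun j h => Or.inl (h4 j h)⟩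
    · obtain ⟨h1, h2, h3, h4⟩ := X2.edges_ends _ e he
      exact ⟨fun v h => Or.inr (h1 v h), fun v h => Or.inr (h2 v h),
        fun j h => Or.inr (h3 j h), fun j h => Or.inr (h4 j h)⟩
  · intro v hv
    rw [hlv, List.mem_append] at hv
    simp only [SP.edges, List.mem_cons, List.mem_append]
    rcases hv with hv | hv
    · rcases X2.leaf_edge _ v hv with h | ⟨e, he, h⟩
      · exact ⟨_, Or.inl rfl, Or.inl h⟩
      · exact ⟨e, Or.inr (Or.inl he), Or.inr h⟩
    · rcases X2.leaf_edge _ v hv with h | ⟨e, he, h⟩
      · exact ⟨_, Or.inl rfl, Or.inr h⟩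
      · exact ⟨e, Or.inr (Or.inr he), Or.inr h⟩

end Pool.Agent.Lib.MP_9f84a9_co
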