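import Pool.Agent.Lib.MP_9f84a9_co.StmA

/-! Piece A3. -/

set_option autoImplicit false

namespace Pool.Agent.Lib.MP_9f84a9_co

open Finset Filter Topology

private lemma A3_end {N : ℕ} {K : Cx N} {c : Pt N → Pt N → ℝ} {x y : Pt N} {k : ℕ} {r : ℝ}
    (h : Path K c x y k r) : In K y := by
  induction h with
  | nil x hx => exact hx
  | cons x y z k r hs hp ih => exact ih

theorem t_A3 : S_A3 := by
  intro N K c ρ hCn h0 htri hst x y hx hy
  have key : ∀ (x y : Pt N) (k : ℕ) (r : ℝ), Path K c x y k r → ρ x y ≤ r := by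
    intro x y k r h
    induction h with
    | nil x hx => exact h0 x hx
    | cons x y z k r hs hp ih =>
      have h1 := htri x y z hs.1 hs.2.1 (A3_end hp)
      have h2 := hst x y hs
      linarith
  apply le_csInf
  · obtain ⟨k, r, h⟩ := hCn c x y hx hy
    exact ⟨r, k, h⟩
  · rintro r ⟨k, h⟩
    exact key x y k r h

end Pool.Agent.Lib.MP_9f84a9_co
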