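import Pool.Agent.Lib.MP_9f84a9_co.StmA

/-!
# MP_9f84a9_co, piece A6: the infimum in the chain metric is attained
-/

set_option autoImplicit false

namespace Pool.Agent.Lib.MP_9f84a9_co

open Finset Filter Topology

private def A6_F {N : ℕ} (f : Finset (Fin N)) : Set (Pt N) :=
  {z | (∀ v, 0 ≤ z v) ∧ ∑ v, z v = 1 ∧ Sup z f}

private theorem A6_F_closed {N : ℕ} (f : Finset (Fin N)) : IsClosed (A6_F f) := by
  have h1 : IsClosed {z : Pt N | ∀ v, 0 ≤ z v} := by
    rw [Set.ofPred_forall]
    exact isClosed_iInter fun v => isClosed_le continuous_const (continuous_apply v)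
  have h2 : IsClosed {z : Pt N | ∑ v, z v = 1} :=
    isClosed_eq (continuous_finsetSum _ fun v _ => continuous_apply v) continuous_const
  have h3 : IsClosed {z : Pt N | Sup z f} := by
    unfold Sup
    rw [Set.ofPred_forall]
    refine isClosed_iInter fun v => ?_
    rw [Set.ofPred_forall]
    exact isClosed_iInter fun _ => isClosed_eq (continuous_apply v) continuous_const
  exact h1.inter (h2.inter h3)

private theorem A6_F_compact {N : ℕ} (f : Finset (Fin N)) : IsCompact (A6_F f) := by
  refine (isCompact_Icc (a := (0 : Pt N)) (b := 1)).of_isClosed_subset (A6_F_closed f) ?_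
  rintro z ⟨h1, h2, -⟩
  refine ⟨fun v => h1 v, fun v => ?_⟩
  have := single_le_sum (f := z) (fun i _ => h1 i) (mem_univ v)
  rw [h2] at this
  exact this

private theorem A6_In {N : ℕ} (K : Cx N) : {z : Pt N | In K z} = ⋃ f ∈ K, A6_F f := by
  ext z
  simp only [Set.mem_ofPred_eq, In, Set.mem_iUnion, A6_F, exists_prop]
  constructor
  · rintro ⟨h1, h2, f, hf, h3⟩
    exact ⟨f, hf, h1, h2, h3⟩
  · rintro ⟨f, hf, h1, h2, h3⟩
    exact ⟨h1, h2, f, hf, h3⟩

private theorem A6_Stp {N : ℕ} (K : Cx N) :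
    {q : Pt N × Pt N | Stp K q.1 q.2} = ⋃ f ∈ K, (A6_F f ×ˢ A6_F f) := by
  ext ⟨z, w⟩
  simp only [Set.mem_ofPred_eq, Stp, In, Set.mem_iUnion, A6_F, exists_prop, Set.mem_prod]
  constructor
  · rintro ⟨⟨h1, h2, _⟩, ⟨h3, h4, _⟩, f, hf, h5, h6⟩
    exact ⟨f, hf, ⟨h1, h2, h5⟩, h3, h4, h6⟩
  · rintro ⟨f, hf, ⟨h1, h2, h5⟩, h3, h4, h6⟩
    exact ⟨⟨h1, h2, f, hf, h5⟩, ⟨h3, h4, f, hf, h6⟩, f, hf, h5, h6⟩

private theorem A6_In_compact {N : ℕ} (K : Cx N) : IsCompact {z : Pt N | In K z} := by
  rw [A6_In]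
  exact K.isCompact_biUnion fun f _ => A6_F_compact f

private theorem A6_Stp_closed {N : ℕ} (K : Cx N) :
    IsClosed {q : Pt N × Pt N | Stp K q.1 q.2} := by
  rw [A6_Stp]
  exact isClosed_biUnion_finset fun f _ => (A6_F_closed f).prod (A6_F_closed f)

private theorem A6_pos {N : ℕ} (p : Fin N → E) : Continuous (pos p) := by
  unfold pos
  exact continuous_finsetSum _ fun v _ => (continuous_apply v).smul continuous_const

/-- sequences which are paths with `k` steps -/
private def A6_C {N : ℕ} (K : Cx N) (x y : Pt N) (k : ℕ) : Set (ℕ → Pt N) :=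
  {u | (∀ i, In K (u i)) ∧ u 0 = x ∧ u k = y ∧ ∀ i < k, Stp K (u i) (u (i + 1))}

private theorem A6_C_compact {N : ℕ} (K : Cx N) (x y : Pt N) (k : ℕ) :
    IsCompact (A6_C K x y k) := by
  have h0 : IsCompact (Set.pi Set.univ fun _ : ℕ => {z : Pt N | In K z}) :=
    isCompact_univ_pi fun _ => A6_In_compact K
  refine h0.of_isClosed_subset ?_ ?_
  · have h1 : IsClosed {u : ℕ → Pt N | ∀ i, In K (u i)} := by
      rw [Set.ofPred_forall]
      refine isClosed_iInter fun i => ?_
      have hc : Continuous fun u : ℕ → Pt N => u i := continuous_apply i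
      exact (A6_In_compact K).isClosed.preimage hc
    have h2 : IsClosed {u : ℕ → Pt N | u 0 = x} :=
      isClosed_eq (continuous_apply 0) continuous_const
    have h3 : IsClosed {u : ℕ → Pt N | u k = y} :=
      isClosed_eq (continuous_apply k) continuous_const
    have h4 : IsClosed {u : ℕ → Pt N | ∀ i < k, Stp K (u i) (u (i + 1))} := by
      rw [Set.ofPred_forall]
      refine isClosed_iInter fun i => ?_
      rw [Set.ofPred_forall]
      have hc : Continuous fun u : ℕ → Pt N => (u i, u (i + 1)) :=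
        (continuous_apply i).prodMk (continuous_apply (i + 1))
      exact isClosed_iInter fun _ => (A6_Stp_closed K).preimage hc
    exact h1.inter (h2.inter (h3.inter h4))
  · rintro u ⟨h1, -⟩ i _
    exact h1 i

theorem t_A6 (hA1 : S_A1) (hA4 : S_A4) : S_A6 := by
  classical
  intro N K p hCn x y hx hy
  have hcost : IsCost (ce p) := (hA1 N).1 p
  obtain ⟨hseq, hshort⟩ := hA4 N K (ce p) hcost
  -- length of a sequence
  set len : ℕ → (ℕ → Pt N) → ℝ := fun k u => ∑ i ∈ range k, ce p (u i) (u (i + 1)) with hlen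
  have hlenc : ∀ k, Continuous (len k) := by
    intro k
    refine continuous_finsetSum _ fun i _ => ?_
    unfold ce
    exact ((A6_pos p).comp (continuous_apply i)).dist ((A6_pos p).comp (continuous_apply (i + 1)))
  have hmem : ∀ k r, Path K (ce p) x y k r ↔ r ∈ len k '' A6_C K x y k := by
    intro k r
    rw [hseq]
    constructor
    · rintro ⟨_, u, h0, hk, hst, hr⟩
      refine ⟨fun i => u (min i k), ⟨?_, ?_, ?_, ?_⟩, ?_⟩
      · intro i
        change In K (u (min i k))
        rcases lt_or_ge i k with h | h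
        · rw [min_eq_left h.le]
          exact (hst i h).1
        · rw [min_eq_right h, hk]
          exact hy
      · change u (min 0 k) = x
        rw [Nat.zero_min, h0]
      · change u (min k k) = y
        rw [min_self, hk]
      · intro i hi
        change Stp K (u (min i k)) (u (min (i + 1) k))
        rw [min_eq_left hi.le, min_eq_left (Nat.succ_le_of_lt hi)]
        exact hst i hi
      · rw [hr]
        refine sum_congr rfl fun i hi => ?_
        rw [mem_range] at hi
        change ce p (u (min i k)) (u (min (i + 1) k)) = _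
        rw [min_eq_left hi.le, min_eq_left (Nat.succ_le_of_lt hi)]
    · rintro ⟨u, ⟨_, h0, hk, hst⟩, hr⟩
      exact ⟨hx, u, h0, hk, hst, hr.symm⟩
  have hcomp : IsCompact (⋃ k ∈ range (K.card + 1), len k '' A6_C K x y k) :=
    (range (K.card + 1)).isCompact_biUnion fun k _ =>
      (A6_C_compact K x y k).image (hlenc k)
  obtain ⟨k0, r0, hp0⟩ := hCn (ce p) x y hx hy
  have hne : (⋃ k ∈ range (K.card + 1), len k '' A6_C K x y k).Nonempty := by
    obtain ⟨k', hk', r', _, hp'⟩ := hshort x y k0 r0 hp0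
    exact ⟨r', Set.mem_biUnion (mem_coe.2 (mem_range.2 (Nat.lt_succ_of_le hk')))
      ((hmem k' r').1 hp')⟩
  obtain ⟨r, hr⟩ := hcomp.exists_isLeast hne
  have hleast : IsLeast {r : ℝ | ∃ k, Path K (ce p) x y k r} r := by
    constructor
    · obtain ⟨k, _, hk⟩ := Set.mem_iUnion₂.1 hr.1
      exact ⟨k, (hmem k r).2 hk⟩
    · rintro r1 ⟨k1, hp1⟩
      obtain ⟨k', hk', r', hr', hp'⟩ := hshort x y k1 r1 hp1
      exact (hr.2 (Set.mem_biUnion (mem_coe.2 (mem_range.2 (Nat.lt_succ_of_le hk')))
        ((hmem k' r').1 hp'))).trans hr'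
  have hd : dK K (ce p) x y = r := hleast.csInf_eq
  have hex : ∃ k, Path K (ce p) x y k (dK K (ce p) x y) := by
    rw [hd]
    exact hleast.1
  exact ⟨Nat.find hex, Nat.find_spec hex, fun k' hk' => Nat.find_min hex hk'⟩

end Pool.Agent.Lib.MP_9f84a9_co
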