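import Pool.Agent.Lib.MP_9f84a9_co.StmB

set_option autoImplicit false

namespace Pool.Agent.Lib.MP_9f84a9_co

open Finset

namespace B1

variable {N : ℕ}

theorem ar_rot (u v w : E) : ar u v w = ar w u v := by
  unfold ar; ring

theorem vl_mv {D D' : Dsc N} (h : Dsc.Mv D D') : D.vl.Perm D'.vl := by
  classical
  rw [List.perm_iff_count]
  intro x
  cases h <;>
    simp only [Dsc.vl, PT.vs, List.count_cons, List.count_append, List.cons_append] <;> omega

theorem K_mv {D D' : Dsc N} (h : Dsc.Mv D D') : D.K = D'.K := by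
  classical
  cases h with
  | sw a b P R =>
    simp only [Dsc.K]
    by_cases hP : P = PT.nil <;> by_cases hR : R = PT.nil <;>
      simp [hP, hR, Finset.pair_comm a b, Finset.union_comm]
  | lf a b w l r R =>
    simp only [Dsc.K, PT.fac]
    rw [if_neg (by simp), if_neg (by simp)]
    have : ({w, a, b} : Finset (Fin N)) = {a, b, w} := by
      ext t; simp only [Finset.mem_insert, Finset.mem_singleton]; tauto
    rw [this]
    ext t
    simp only [Finset.mem_union, Finset.mem_insert]; tauto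
  | rt a b w l r R =>
    simp only [Dsc.K, PT.fac]
    rw [if_neg (by simp), if_neg (by simp)]
    have : ({b, w, a} : Finset (Fin N)) = {a, b, w} := by
      ext t; simp only [Finset.mem_insert, Finset.mem_singleton]; tauto
    rw [this]
    ext t
    simp only [Finset.mem_union, Finset.mem_insert]; tauto

theorem eqv_mv {D D' : Dsc N} (h : Dsc.Mv D D') : Dsc.Eqv D' D := by
  cases h with
  | sw a b P R => exact Relation.ReflTransGen.single (Dsc.Mv.sw _ _ _ _)
  | lf a b w l r R =>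
    exact (((Relation.ReflTransGen.single (Dsc.Mv.sw _ _ _ _)).tail (Dsc.Mv.rt _ _ _ _ _ _)).tail
      (Dsc.Mv.sw _ _ _ _))
  | rt a b w l r R =>
    exact (((Relation.ReflTransGen.single (Dsc.Mv.sw _ _ _ _)).tail (Dsc.Mv.lf _ _ _ _ _ _)).tail
      (Dsc.Mv.sw _ _ _ _))

theorem fun_mv {D D' : Dsc N} (h : Dsc.Mv D D') (p : Fin N → E) :
    (D.WPos p ↔ D'.WPos p) ∧ (D.SPos p ↔ D'.SPos p) ∧ D.I p = D'.I p ∧ D.Q p = D'.Q p := by
  cases h with
  | sw a b P R =>
    refine ⟨?_, ?_, ?_, ?_⟩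
    · simp only [Dsc.WPos]; tauto
    · simp only [Dsc.SPos]; tauto
    · simp only [Dsc.I]; ring
    · simp only [Dsc.Q, dist_comm (p b) (p a)]; ring
  | lf a b w l r R =>
    have h1 : ar (p w) (p a) (p b) = ar (p a) (p b) (p w) := by unfold ar; ring
    refine ⟨?_, ?_, ?_, ?_⟩
    · simp only [Dsc.WPos, PT.WPos, h1]; tauto
    · simp only [Dsc.SPos, PT.SPos, h1]; tauto
    · simp only [Dsc.I, PT.I, h1]; ring
    · simp only [Dsc.Q, PT.Q, dist_comm (p b) (p a), dist_comm (p b) (p w)]; ring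
  | rt a b w l r R =>
    have h1 : ar (p b) (p w) (p a) = ar (p a) (p b) (p w) := by unfold ar; ring
    refine ⟨?_, ?_, ?_, ?_⟩
    · simp only [Dsc.WPos, PT.WPos, h1]; tauto
    · simp only [Dsc.SPos, PT.SPos, h1]; tauto
    · simp only [Dsc.I, PT.I, h1]; ring
    · simp only [Dsc.Q, PT.Q, dist_comm (p b) (p a), dist_comm (p w) (p a)]; ring

end B1

theorem t_B1 : S_B1 := by
  intro N D D' h
  unfold Dsc.Eqv at h
  induction h with
  | refl =>
    exact ⟨List.Perm.refl _, Iff.rfl, rfl, Relation.ReflTransGen.refl, fun p => ⟨Iff.rfl, Iff.rfl, rfl, rfl⟩⟩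
  | tail _ hm ih =>
    obtain ⟨h1, h2, h3, h4, h5⟩ := ih
    have hv := B1.vl_mv hm
    refine ⟨h1.trans hv, h2.trans ?_, h3.trans (B1.K_mv hm), (B1.eqv_mv hm).trans h4, fun p => ?_⟩
    · exact hv.nodup_iff
    · obtain ⟨g1, g2, g3, g4⟩ := B1.fun_mv hm p
      obtain ⟨k1, k2, k3, k4⟩ := h5 p
      exact ⟨k1.trans g1, k2.trans g2, k3.trans g3, k4.trans g4⟩

end Pool.Agent.Lib.MP_9f84a9_co
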