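import Pool.Agent.Lib.MP_9f84a9_co.StmB

/-!
# MP_9f84a9_co [B2]: any edge can be made the centre edge.
-/

set_option autoImplicit false

namespace Pool.Agent.Lib.MP_9f84a9_co

open Finset

namespace B2

theorem top {N : ℕ} (f : Finset (Fin N)) : ∀ (P : PT N) (a b : Fin N) (R : PT N),
    f ∈ P.fac a b → ∃ D' w l r, Dsc.Eqv ⟨a, b, P, R⟩ D' ∧ D'.P = PT.node w l r ∧
      f = {D'.a, D'.b, w} := by
  intro P
  induction P with
  | nil =>
    intro a b R h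
    exact absurd h (Finset.notMem_empty _)
  | node w l r ihl ihr =>
    intro a b R h
    have h' : f ∈ insert {a, b, w} (PT.fac a w l ∪ PT.fac w b r) := h
    rw [Finset.mem_insert, Finset.mem_union] at h'
    rcases h' with h' | h' | h'
    · exact ⟨⟨a, b, PT.node w l r, R⟩, w, l, r, Relation.ReflTransGen.refl, rfl, h'⟩
    · obtain ⟨D', w', l', r', h1, h2, h3⟩ := ihl a w (PT.node b r R) h'
      exact ⟨D', w', l', r', Relation.ReflTransGen.head (Dsc.Mv.lf a b w l r R) h1, h2, h3⟩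
    · obtain ⟨D', w', l', r', h1, h2, h3⟩ := ihr w b (PT.node a R l) h'
      exact ⟨D', w', l', r', Relation.ReflTransGen.head (Dsc.Mv.rt a b w l r R) h1, h2, h3⟩

theorem rotate {N : ℕ} (D : Dsc N) (w : Fin N) (l r : PT N) (hP : D.P = PT.node w l r)
    (x y : Fin N) (hx : x ∈ ({D.a, D.b, w} : Finset (Fin N)))
    (hy : y ∈ ({D.a, D.b, w} : Finset (Fin N))) (hxy : x ≠ y) :
    ∃ D' w' l' r', Dsc.Eqv D D' ∧ D'.P = PT.node w' l' r' ∧
      ({D.a, D.b, w} : Finset (Fin N)) = {D'.a, D'.b, w'} ∧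
      ((D'.a = x ∧ D'.b = y) ∨ (D'.a = y ∧ D'.b = x)) := by
  obtain ⟨a, b, P, R⟩ := D
  simp only at hP hx hy
  subst hP
  have h0 : Dsc.Eqv (N := N) ⟨a, b, PT.node w l r, R⟩ ⟨a, b, PT.node w l r, R⟩ :=
    Relation.ReflTransGen.refl
  have h1 : Dsc.Eqv (N := N) ⟨a, b, PT.node w l r, R⟩ ⟨w, a, PT.node b r R, l⟩ :=
    (Relation.ReflTransGen.single (Dsc.Mv.lf a b w l r R)).tail (Dsc.Mv.sw a w l (PT.node b r R))
  have h2 : Dsc.Eqv (N := N) ⟨a, b, PT.node w l r, R⟩ ⟨b, w, PT.node a R l, r⟩ :=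
    (Relation.ReflTransGen.single (Dsc.Mv.rt a b w l r R)).tail (Dsc.Mv.sw w b r (PT.node a R l))
  have e1 : ({a, b, w} : Finset (Fin N)) = {w, a, b} := by
    ext t; simp only [Finset.mem_insert, Finset.mem_singleton]; tauto
  have e2 : ({a, b, w} : Finset (Fin N)) = {b, w, a} := by
    ext t; simp only [Finset.mem_insert, Finset.mem_singleton]; tauto
  simp only [Finset.mem_insert, Finset.mem_singleton] at hx hy
  rcases hx with rfl | rfl | rfl <;> rcases hy with rfl | rfl | rfl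
  · exact absurd rfl hxy
  · exact ⟨_, w, l, r, h0, rfl, rfl, Or.inl ⟨rfl, rfl⟩⟩
  · exact ⟨_, b, r, R, h1, rfl, e1, Or.inr ⟨rfl, rfl⟩⟩
  · exact ⟨_, w, l, r, h0, rfl, rfl, Or.inr ⟨rfl, rfl⟩⟩
  · exact absurd rfl hxy
  · exact ⟨_, a, R, l, h2, rfl, e2, Or.inl ⟨rfl, rfl⟩⟩
  · exact ⟨_, b, r, R, h1, rfl, e1, Or.inl ⟨rfl, rfl⟩⟩
  · exact ⟨_, a, R, l, h2, rfl, e2, Or.inr ⟨rfl, rfl⟩⟩
  · exact absurd rfl hxy

theorem sw' {N : ℕ} (D : Dsc N) : Dsc.Mv D ⟨D.b, D.a, D.R, D.P⟩ := by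
  obtain ⟨a, b, P, R⟩ := D
  exact Dsc.Mv.sw a b P R

end B2

theorem t_B2 : S_B2 := by
  intro N D _ f hf x hx y hy hxy
  have two : ¬ (D.P = PT.nil ∧ D.R = PT.nil) →
      ∃ D' w l r, Dsc.Eqv D D' ∧ D'.P = PT.node w l r ∧ f = {D'.a, D'.b, w} ∧
        ((D'.a = x ∧ D'.b = y) ∨ (D'.a = y ∧ D'.b = x)) := by
    intro hn
    have hf' : f ∈ D.P.fac D.a D.b ∪ D.R.fac D.b D.a := by
      unfold Dsc.K at hf
      rwa [if_neg hn] at hf
    obtain ⟨D', w, l, r, h1, h2, h3⟩ : ∃ D' w l r, Dsc.Eqv D D' ∧ D'.P = PT.node w l r ∧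
        f = {D'.a, D'.b, w} := by
      rcases Finset.mem_union.1 hf' with h | h
      · exact B2.top f D.P D.a D.b D.R h
      · obtain ⟨D', w, l, r, h1, h2, h3⟩ := B2.top f D.R D.b D.a D.P h
        exact ⟨D', w, l, r, Relation.ReflTransGen.head (B2.sw' D) h1, h2, h3⟩
    subst h3
    obtain ⟨D'', w', l', r', g1, g2, g3, g4⟩ := B2.rotate D' w l r h2 x y hx hy hxy
    exact ⟨D'', w', l', r', h1.trans g1, g2, g3, g4⟩
  refine ⟨?_, two⟩
  by_cases hn : D.P = PT.nil ∧ D.R = PT.nil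
  · have hf' : f = {D.a, D.b} := by
      unfold Dsc.K at hf
      rw [if_pos hn] at hf
      exact Finset.mem_singleton.1 hf
    subst hf'
    simp only [Finset.mem_insert, Finset.mem_singleton] at hx hy
    rcases hx with hx | hx <;> rcases hy with hy | hy
    · exact absurd (hx.trans hy.symm) hxy
    · exact ⟨D, Relation.ReflTransGen.refl, hx.symm, hy.symm⟩
    · exact ⟨_, Relation.ReflTransGen.single (B2.sw' D), hx.symm, hy.symm⟩
    · exact absurd (hx.trans hy.symm) hxy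
  · obtain ⟨D', w, l, r, h1, _, _, h4⟩ := two hn
    rcases h4 with ⟨h, h'⟩ | ⟨h, h'⟩
    · exact ⟨D', h1, h, h'⟩
    · exact ⟨⟨D'.b, D'.a, D'.R, D'.P⟩, h1.tail (B2.sw' D'), h', h⟩

end Pool.Agent.Lib.MP_9f84a9_co
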