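import Pool.Agent.Lib.MP_9f84a9_co.StmB

/-!
# MP_9f84a9_co, piece B3: the facets containing both ends of the centre edge
-/

set_option autoImplicit false

namespace Pool.Agent.Lib.MP_9f84a9_co

open Finset

namespace B3

variable {N : ℕ}

/-- vertices of the facets -/
theorem fac_sub (P : PT N) : ∀ (a b : Fin N) (f : Finset (Fin N)), f ∈ P.fac a b →
    ∀ v ∈ f, v = a ∨ v = b ∨ v ∈ P.vs := by
  induction P with
  | nil =>
    intro a b f hf
    exact absurd hf (Finset.notMem_empty _)
  | node w l r ihl ihr =>
    intro a b f hf v hv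
    simp only [PT.fac, Finset.mem_insert, Finset.mem_union] at hf
    simp only [PT.vs, List.mem_cons, List.mem_append]
    rcases hf with rfl | hf | hf
    · simp only [Finset.mem_insert, Finset.mem_singleton] at hv
      tauto
    · have := ihl a w f hf v hv
      tauto
    · have := ihr w b f hf v hv
      tauto

/-- the facets of one side containing both base vertices -/
theorem fac_base (P : PT N) (a b : Fin N) (h : (a :: b :: P.vs).Nodup) (f : Finset (Fin N))
    (hf : f ∈ P.fac a b) (ha : a ∈ f) (hb : b ∈ f) :
    ∃ w l r, P = PT.node w l r ∧ f = {a, b, w} := by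
  cases P with
  | nil => exact absurd hf (Finset.notMem_empty _)
  | node w l r =>
    refine ⟨w, l, r, rfl, ?_⟩
    simp only [PT.vs, List.nodup_cons, List.mem_cons, List.mem_append, not_or] at h
    simp only [PT.fac, Finset.mem_insert, Finset.mem_union] at hf
    rcases hf with rfl | hf | hf
    · rfl
    · exfalso
      have := fac_sub l a w f hf b hb
      have h1 : b ≠ a := fun e => h.1.1 e.symm
      tauto
    · exfalso
      have := fac_sub r w b f hf a ha
      tauto

end B3

theorem t_B3 : S_B3 := by
  intro N D hD f hf ha hb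
  unfold Dsc.ok Dsc.vl at hD
  by_cases hn : D.P = PT.nil ∧ D.R = PT.nil
  · left
    unfold Dsc.K at hf
    rw [if_pos hn] at hf
    exact ⟨hn.1, hn.2, Finset.mem_singleton.1 hf⟩
  · unfold Dsc.K at hf
    rw [if_neg hn, Finset.mem_union] at hf
    right
    rcases hf with hf | hf
    · left
      refine B3.fac_base D.P D.a D.b ?_ f hf ha hb
      exact hD.sublist (((List.sublist_append_left D.P.vs D.R.vs).cons_cons D.b).cons_cons D.a)
    · right
      have h1 : (D.a :: D.b :: D.R.vs).Nodup :=
        hD.sublist (((List.sublist_append_right D.P.vs D.R.vs).cons_cons D.b).cons_cons D.a)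
      obtain ⟨w, l, r, h2, h3⟩ := B3.fac_base D.R D.b D.a
        ((List.Perm.swap D.b D.a D.R.vs).nodup_iff.1 h1) f hf hb ha
      exact ⟨w, l, r, h2, by rw [h3, Finset.insert_comm]⟩

end Pool.Agent.Lib.MP_9f84a9_co
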