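import Pool.Agent.Lib.MP_9f84a9_co.StmA

/-!
# MP_9f84a9_co, piece A1
-/

set_option autoImplicit false

namespace Pool.Agent.Lib.MP_9f84a9_co

open Finset Filter Topology

namespace A1

theorem ce_cost {N : ℕ} (p : Fin N → E) : IsCost (ce p) where
  nonneg _ _ := dist_nonneg
  self _ := dist_self _
  symm _ _ := dist_comm _ _
  tri _ _ _ := dist_triangle _ _ _

theorem dist_cost {N : ℕ} : IsCost (fun x y : Pt N => dist x y) where
  nonneg _ _ := dist_nonneg
  self _ := dist_self _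
  symm _ _ := dist_comm _ _
  tri _ _ _ := dist_triangle _ _ _

theorem stp_symm {N : ℕ} (K : Cx N) (x y : Pt N) (h : Stp K x y) : Stp K y x := by
  obtain ⟨h1, h2, f, hf, h3, h4⟩ := h
  exact ⟨h2, h1, f, hf, h4, h3⟩

theorem vx_in {N : ℕ} (K : Cx N) (f : Finset (Fin N)) (v : Fin N) (hf : f ∈ K) (hv : v ∈ f) :
    In K (vx v) ∧ Sup (vx v) f := by
  have hs : Sup (vx v) f := by
    intro u hu
    have h : u ≠ v := fun e => hu (e ▸ hv)
    unfold vx
    rw [Pi.single_eq_of_ne h]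
  refine ⟨⟨?_, ?_, f, hf, hs⟩, hs⟩
  · intro u
    unfold vx
    by_cases h : u = v
    · subst h
      rw [Pi.single_eq_same]
      exact zero_le_one
    · rw [Pi.single_eq_of_ne h]
  · unfold vx
    rw [Finset.sum_pi_single']
    simp

theorem pos_vx {N : ℕ} (p : Fin N → E) (v : Fin N) : pos p (vx v) = p v := by
  unfold pos vx
  rw [Finset.sum_eq_single v]
  · rw [Pi.single_eq_same, one_smul]
  · intro b _ hb
    rw [Pi.single_eq_of_ne hb, zero_smul]
  · intro h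
    exact absurd (Finset.mem_univ v) h

theorem conv {N : ℕ} (f : Finset (Fin N)) (x y : Pt N) (t : ℝ) (hx : ∀ v, 0 ≤ x v)
    (hx1 : ∑ v, x v = 1) (hxs : Sup x f) (hy : ∀ v, 0 ≤ y v) (hy1 : ∑ v, y v = 1)
    (hys : Sup y f) (h0 : 0 ≤ t) (h1 : t ≤ 1) :
    (∀ v, 0 ≤ ((1 - t) • x + t • y) v) ∧ ∑ v, ((1 - t) • x + t • y) v = 1 ∧
      Sup ((1 - t) • x + t • y) f := by
  have e : ∀ v, ((1 - t) • x + t • y) v = (1 - t) * x v + t * y v := fun v => rfl
  refine ⟨fun v => ?_, ?_, fun v hv => ?_⟩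
  · rw [e]
    exact add_nonneg (mul_nonneg (sub_nonneg.2 h1) (hx v)) (mul_nonneg h0 (hy v))
  · simp only [e]
    rw [Finset.sum_add_distrib, ← Finset.mul_sum, ← Finset.mul_sum, hx1, hy1]
    ring
  · rw [e, hxs v hv, hys v hv]
    ring

theorem pos_lin {N : ℕ} (p : Fin N → E) (x y : Pt N) (t : ℝ) :
    pos p ((1 - t) • x + t • y) = (1 - t) • pos p x + t • pos p y := by
  unfold pos
  rw [Finset.smul_sum, Finset.smul_sum, ← Finset.sum_add_distrib]
  refine Finset.sum_congr rfl fun v _ => ?_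
  have e : ((1 - t) • x + t • y) v = (1 - t) * x v + t * y v := rfl
  rw [e, add_smul, mul_smul, mul_smul]

theorem pos_dist {N : ℕ} (p p' : Fin N → E) (x : Pt N) (ε : ℝ)
    (h : ∀ v, dist (p v) (p' v) ≤ ε) (hx : ∀ v, 0 ≤ x v) (hx1 : ∑ v, x v = 1) :
    dist (pos p x) (pos p' x) ≤ ε := by
  rw [dist_eq_norm]
  unfold pos
  rw [← Finset.sum_sub_distrib]
  calc ‖∑ v, (x v • p v - x v • p' v)‖ ≤ ∑ v, ‖x v • p v - x v • p' v‖ := norm_sum_le _ _
    _ ≤ ∑ v, x v * ε := by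
        refine Finset.sum_le_sum fun v _ => ?_
        rw [← smul_sub, norm_smul, Real.norm_of_nonneg (hx v), ← dist_eq_norm]
        exact mul_le_mul_of_nonneg_left (h v) (hx v)
    _ = ε := by rw [← Finset.sum_mul, hx1, one_mul]

end A1

theorem t_A1 : S_A1 := by
  intro N
  exact ⟨A1.ce_cost, A1.dist_cost, A1.stp_symm, fun K x y h => ⟨h.1, h.2.1⟩, A1.vx_in, A1.pos_vx,
    A1.conv, A1.pos_lin, A1.pos_dist⟩

end Pool.Agent.Lib.MP_9f84a9_co
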