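import Pool.Agent.Lib.MP_9f84a9_co.StmB

/-!
# MP_9f84a9_co, piece B10: contraction of the boundary edge `(a,b)`, combinatorially
-/

set_option autoImplicit false

namespace Pool.Agent.Lib.MP_9f84a9_co

open Finset

namespace B10

variable {N : ℕ}

/-- the renaming `b ↦ a` -/
def g (a b : Fin N) (v : Fin N) : Fin N := if v = b then a else v

theorem fac_map (a b : Fin N) (P : PT N) :
    ∀ c d : Fin N, (∀ v ∈ P.vs, v ≠ b) →
      PT.fac (g a b c) (g a b d) P = (PT.fac c d P).image (fun f => f.image (g a b)) := by
  induction P with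
  | nil => intro c d _; simp [PT.fac]
  | node x l r ihl ihr =>
    intro c d h
    have hx : x ≠ b := h x (by simp [PT.vs])
    have hgx : g a b x = x := by simp [g, hx]
    have hl := ihl c x (fun v hv => h v (by simp [PT.vs, hv]))
    have hr := ihr x d (fun v hv => h v (by simp [PT.vs, hv]))
    rw [hgx] at hl hr
    simp only [PT.fac]
    rw [hl, hr, image_insert, image_union, image_insert, image_insert, image_singleton, hgx]

theorem fac_sub (P : PT N) : ∀ c d : Fin N, ∀ f ∈ PT.fac c d P, ∀ v ∈ f,
    v = c ∨ v = d ∨ v ∈ P.vs := by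
  induction P with
  | nil => intro c d f hf; simp [PT.fac] at hf
  | node x l r ihl ihr =>
    intro c d f hf v hv
    simp only [PT.fac, mem_insert, mem_union] at hf
    rcases hf with hf | hf | hf
    · subst hf
      simp only [mem_insert, mem_singleton] at hv
      rcases hv with hv | hv | hv
      · exact Or.inl hv
      · exact Or.inr (Or.inl hv)
      · right; right; simp [PT.vs, hv]
    · rcases ihl c x f hf v hv with h | h | h
      · exact Or.inl h
      · right; right; simp [PT.vs, h]
      · right; right; simp [PT.vs, h]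
    · rcases ihr x d f hf v hv with h | h | h
      · right; right; simp [PT.vs, h]
      · exact Or.inr (Or.inl h)
      · right; right; simp [PT.vs, h]

theorem wpos_congr (p : Fin N → E) (P : PT N) : ∀ c d c' d' : Fin N, p c = p c' → p d = p d' →
    PT.WPos p c d P → PT.WPos p c' d' P := by
  induction P with
  | nil => intro c d c' d' _ _ h; exact h
  | node x l r ihl ihr =>
    intro c d c' d' hc hd h
    simp only [PT.WPos] at h ⊢
    refine ⟨?_, ihl c x c' x hc rfl h.2.1, ihr x d x d' rfl hd h.2.2⟩
    rw [← hc, ← hd]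
    exact h.1

theorem K_node (a b w : Fin N) (l r : PT N) :
    (Dsc.mk a b (PT.node w l r) PT.nil).K = insert {a, b, w} (PT.fac a w l ∪ PT.fac w b r) := by
  simp [Dsc.K, PT.fac]

theorem mem_K' (a w : Fin N) (l r : PT N) (f : Finset (Fin N)) (h : f ∈ (Dsc.mk a w l r).K) :
    f = {a, w} ∨ f ∈ PT.fac a w l ∨ f ∈ PT.fac w a r := by
  unfold Dsc.K at h
  split_ifs at h with h0
  · left; simpa using h
  · right
    simpa using h

theorem sub_K' (a w : Fin N) (l r : PT N) (f : Finset (Fin N))
    (h : f ∈ PT.fac a w l ∨ f ∈ PT.fac w a r) : f ∈ (Dsc.mk a w l r).K := by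
  have h0 : ¬ (l = PT.nil ∧ r = PT.nil) := by
    rintro ⟨rfl, rfl⟩
    simp [PT.fac] at h
  unfold Dsc.K
  rw [if_neg (by simpa using h0)]
  simpa using h

theorem edge_K' (a w : Fin N) (l r : PT N) : ∃ f ∈ (Dsc.mk a w l r).K, ({a, w} : Finset (Fin N)) ⊆ f := by
  cases l with
  | nil =>
    cases r with
    | nil => exact ⟨{a, w}, by simp [Dsc.K], Subset.refl _⟩
    | node x r1 r2 =>
      refine ⟨{w, a, x}, sub_K' _ _ _ _ _ (Or.inr (by simp [PT.fac])), ?_⟩
      intro v hv
      simp only [mem_insert, mem_singleton] at hv ⊢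
      tauto
  | node x l1 l2 =>
    refine ⟨{a, w, x}, sub_K' _ _ _ _ _ (Or.inl (by simp [PT.fac])), ?_⟩
    intro v hv
    simp only [mem_insert, mem_singleton] at hv ⊢
    tauto

end B10

open B10 in
theorem t_B10 : S_B10 := by
  intro N a b w l r hok
  have hvl : (Dsc.mk a b (PT.node w l r) PT.nil).vl = a :: b :: w :: (l.vs ++ r.vs) := by
    simp [Dsc.vl, PT.vs]
  have hvl' : (Dsc.mk a w l r).vl = a :: w :: (l.vs ++ r.vs) := rfl
  have hnd : (a :: b :: w :: (l.vs ++ r.vs)).Nodup := by
    have := hok
    unfold Dsc.ok at this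
    rwa [hvl] at this
  have hperm : (a :: b :: w :: (l.vs ++ r.vs)).Perm (b :: a :: w :: (l.vs ++ r.vs)) :=
    List.Perm.swap b a _
  have hnd2 : (b :: a :: w :: (l.vs ++ r.vs)).Nodup := hperm.nodup_iff.mp hnd
  have hbn := (List.nodup_cons.mp hnd2).1
  have hnd3 := (List.nodup_cons.mp hnd2).2
  have han := (List.nodup_cons.mp hnd3).1
  have hab : a ≠ b := by
    rintro rfl
    exact hbn (by simp)
  have hwb : w ≠ b := by
    rintro rfl
    exact hbn (by simp)
  have hwa : w ≠ a := by
    rintro rfl
    exact han (by simp)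
  have hbl : b ∉ l.vs := fun h => hbn (by simp [h])
  have hbr : b ∉ r.vs := fun h => hbn (by simp [h])
  have har : a ∉ r.vs := fun h => han (by simp [h])
  have hga : (fun v => if v = b then a else v) = g a b := rfl
  have hr : PT.fac w a r = (PT.fac w b r).image (fun f => f.image (g a b)) := by
    have := fac_map a b r w b (fun v hv hvb => hbr (hvb ▸ hv))
    have h1 : g a b w = w := by simp [g, hwb]
    have h2 : g a b b = a := by simp [g]
    rwa [h1, h2] at this
  refine ⟨?_, ?_, ?_, ?_, ?_⟩
  · unfold Dsc.ok
    rw [hvl']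
    exact hnd3
  · rw [hvl, hvl']
    exact hperm
  · intro f hf
    rw [K_node] at hf
    simp only [mem_insert, mem_union] at hf
    rw [hga]
    rcases hf with hf | hf | hf
    · obtain ⟨f', hf', hsub⟩ := edge_K' a w l r
      refine ⟨f', hf', ?_⟩
      subst hf
      refine Subset.trans ?_ hsub
      intro v hv
      simp only [mem_image, mem_insert, mem_singleton] at hv ⊢
      obtain ⟨u, hu, rfl⟩ := hv
      rcases hu with rfl | rfl | rfl
      · left; simp [g]
      · left; simp [g]
      · right; simp [g, hwb]
    · refine ⟨f, sub_K' _ _ _ _ _ (Or.inl hf), ?_⟩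
      intro v hv
      obtain ⟨u, hu, rfl⟩ := mem_image.mp hv
      have hub : u ≠ b := by
        rintro rfl
        rcases fac_sub l a w f hf u hu with h | h | h
        · exact hab h.symm
        · exact hwb h.symm
        · exact hbl h
      have : g a b u = u := by simp [g, hub]
      rw [this]
      exact hu
    · refine ⟨f.image (g a b), sub_K' _ _ _ _ _ (Or.inr ?_), Subset.refl _⟩
      rw [hr]
      exact mem_image_of_mem _ hf
  · intro f' hf'
    rw [K_node, hga]
    rcases mem_K' a w l r f' hf' with h | h | h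
    · subst h
      refine ⟨?_, {a, b, w}, by simp, Or.inl ?_⟩
      · simp only [mem_insert, mem_singleton, not_or]
        exact ⟨hab.symm, hwb.symm⟩
      · intro v hv
        simp only [mem_insert, mem_singleton] at hv ⊢
        tauto
    · refine ⟨?_, f', by simp [h], Or.inl (Subset.refl _)⟩
      intro hb
      rcases fac_sub l a w f' h b hb with h | h | h
      · exact hab h.symm
      · exact hwb h.symm
      · exact hbl h
    · refine ⟨?_, ?_⟩
      · intro hb
        rcases fac_sub r w a f' h b hb with h | h | h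
        · exact hwb h.symm
        · exact hab h.symm
        · exact hbr h
      · rw [hr] at h
        obtain ⟨f, hf, rfl⟩ := mem_image.mp h
        refine ⟨f, by simp [hf], Or.inr ⟨?_, rfl⟩⟩
        intro ha
        rcases fac_sub r w b f hf a ha with h | h | h
        · exact hwa h.symm
        · exact hab h
        · exact har h
  · intro p hp h
    simp only [Dsc.WPos, PT.WPos] at h ⊢
    exact ⟨h.1.2.1, wpos_congr p r w b w a rfl hp.symm h.1.2.2⟩

end Pool.Agent.Lib.MP_9f84a9_co
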