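import Pool.Agent.Lib.MP_9f84a9_co.StmB

set_option autoImplicit false

namespace Pool.Agent.Lib.MP_9f84a9_co

open Finset

theorem t_B9 : S_B9 := by
  classical
  intro N a b w x l r l' r'
  refine ⟨?_, PT.fac a w l ∪ PT.fac w b r ∪ PT.fac b x l' ∪ PT.fac x a r', ?_, ?_⟩
  · rw [List.perm_iff_count]
    intro v
    simp only [Dsc.vl, flp, PT.vs, List.count_cons, List.count_append, List.cons_append]
    omega
  · unfold Dsc.K
    rw [if_neg (by simp)]
    ext f
    have e1 : ({b, a, x} : Finset (Fin N)) = {a, b, x} := by
      ext y; simp only [mem_insert, mem_singleton]; tauto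
    simp only [PT.fac, mem_union, mem_insert, mem_singleton, e1]
    tauto
  · unfold Dsc.K flp
    rw [if_neg (by simp)]
    ext f
    have e1 : ({x, w, a} : Finset (Fin N)) = {a, x, w} := by
      ext y; simp only [mem_insert, mem_singleton]; tauto
    have e2 : ({w, x, b} : Finset (Fin N)) = {b, x, w} := by
      ext y; simp only [mem_insert, mem_singleton]; tauto
    simp only [PT.fac, mem_union, mem_insert, mem_singleton, e1, e2]
    tauto

end Pool.Agent.Lib.MP_9f84a9_co
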