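import Pool.Agent.Lib.MP_9f84a9_co.StmB

/-!
# MP_9f84a9_co, piece B7: the equality case of the edge count
-/

set_option autoImplicit false

namespace Pool.Agent.Lib.MP_9f84a9_co

open Finset

namespace B7

variable {N : ℕ}

open Classical in
/-- vertex set of the polygon over `(a,b)` -/
noncomputable def V (a b : Fin N) (P : PT N) : Finset (Fin N) := insert a (insert b P.vs.toFinset)

open Classical in
/-- number of edges inside `A` of the polygon over `(a,b)` -/
noncomputable def ec (A : Finset (Fin N)) : Fin N → Fin N → PT N → ℕ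
  | a, b, PT.nil => if a ∈ A ∧ b ∈ A then 1 else 0
  | a, b, PT.node w l r => (if a ∈ A ∧ b ∈ A then 1 else 0) + ec A a w l + ec A w b r

open Classical in
/-- the base pair -/
noncomputable def bp (A : Finset (Fin N)) (a b : Fin N) : Finset (Fin N × Fin N) :=
  if a ∈ A ∧ b ∈ A then {(min a b, max a b)} else ∅

open Classical in
/-- the edges inside `A` of the polygon over `(a,b)` -/
noncomputable def es (A : Finset (Fin N)) : Fin N → Fin N → PT N → Finset (Fin N × Fin N)
  | a, b, PT.nil => bp A a b
  | a, b, PT.node w l r => bp A a b ∪ (es A a w l ∪ es A w b r)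

theorem mem_V {a b x : Fin N} {P : PT N} : x ∈ V a b P ↔ x = a ∨ x = b ∨ x ∈ P.vs := by
  unfold V; simp

theorem bp_card (A : Finset (Fin N)) (a b : Fin N) :
    (bp A a b).card = open Classical in if a ∈ A ∧ b ∈ A then 1 else 0 := by
  unfold bp
  split_ifs <;> simp

theorem es_card (A : Finset (Fin N)) (P : PT N) :
    ∀ a b : Fin N, (es A a b P).card ≤ ec A a b P := by
  classical
  induction P with
  | nil => intro a b; unfold es ec; rw [bp_card]
  | node w l r ihl ihr =>
    intro a b
    unfold es ec
    have h1 := card_union_le (bp A a b) (es A a w l ∪ es A w b r)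
    have h2 := card_union_le (es A a w l) (es A w b r)
    have h3 := ihl a w
    have h4 := ihr w b
    rw [bp_card] at h1
    omega

theorem mem_bp {A : Finset (Fin N)} {a b x y : Fin N} (hxy : x < y) (hx : x ∈ A) (hy : y ∈ A)
    (h : (x = a ∧ y = b) ∨ (x = b ∧ y = a)) : (x, y) ∈ bp A a b := by
  unfold bp
  rcases h with ⟨rfl, rfl⟩ | ⟨rfl, rfl⟩
  · rw [if_pos ⟨hx, hy⟩, min_eq_left hxy.le, max_eq_right hxy.le]; simp
  · rw [if_pos ⟨hy, hx⟩, min_eq_right hxy.le, max_eq_left hxy.le]; simp

theorem bp_sub_es (A : Finset (Fin N)) (a b : Fin N) (P : PT N) : bp A a b ⊆ es A a b P := by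
  cases P with
  | nil => exact subset_rfl
  | node w l r => unfold es; exact subset_union_left

theorem fac_sub_es {A : Finset (Fin N)} {x y : Fin N} (hxy : x < y) (hx : x ∈ A) (hy : y ∈ A)
    (P : PT N) : ∀ a b : Fin N, ∀ f ∈ P.fac a b, x ∈ f → y ∈ f → (x, y) ∈ es A a b P := by
  classical
  induction P with
  | nil => intro a b f hf; simp [PT.fac] at hf
  | node w l r ihl ihr =>
    intro a b f hf hxf hyf
    unfold PT.fac at hf
    unfold es
    rw [mem_insert, mem_union] at hf
    rw [mem_union, mem_union]
    rcases hf with rfl | hf | hf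
    · have hne : x ≠ y := hxy.ne
      simp only [mem_insert, mem_singleton] at hxf hyf
      rcases hxf with hx1 | hx1 | hx1 <;> rcases hyf with hy1 | hy1 | hy1
      · exact absurd (hx1.trans hy1.symm) hne
      · exact Or.inl (mem_bp hxy hx hy (Or.inl ⟨hx1, hy1⟩))
      · exact Or.inr (Or.inl (bp_sub_es _ _ _ _ (mem_bp hxy hx hy (Or.inl ⟨hx1, hy1⟩))))
      · exact Or.inl (mem_bp hxy hx hy (Or.inr ⟨hx1, hy1⟩))
      · exact absurd (hx1.trans hy1.symm) hne
      · exact Or.inr (Or.inr (bp_sub_es _ _ _ _ (mem_bp hxy hx hy (Or.inr ⟨hx1, hy1⟩))))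
      · exact Or.inr (Or.inl (bp_sub_es _ _ _ _ (mem_bp hxy hx hy (Or.inr ⟨hx1, hy1⟩))))
      · exact Or.inr (Or.inr (bp_sub_es _ _ _ _ (mem_bp hxy hx hy (Or.inl ⟨hx1, hy1⟩))))
      · exact absurd (hx1.trans hy1.symm) hne
    · exact Or.inr (Or.inl (ihl a w f hf hxf hyf))
    · exact Or.inr (Or.inr (ihr w b f hf hxf hyf))

theorem edg_card_le (A : Finset (Fin N)) (a b : Fin N) (P : PT N) :
    (edg (Dsc.mk a b P PT.nil).K A).card ≤ ec A a b P := by
  classical
  refine le_trans (card_le_card ?_) (es_card A P a b)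
  rintro ⟨x, y⟩ h
  unfold edg at h
  rw [mem_filter] at h
  obtain ⟨-, hxy, hx, hy, f, hf, hxf, hyf⟩ := h
  unfold Dsc.K at hf
  split_ifs at hf with h0
  · rw [mem_singleton] at hf
    subst hf
    apply bp_sub_es
    have hne : x ≠ y := ne_of_lt hxy
    simp only [mem_insert, mem_singleton] at hxf hyf
    rcases hxf with hx1 | hx1 <;> rcases hyf with hy1 | hy1
    · exact absurd (hx1.trans hy1.symm) hne
    · exact mem_bp hxy hx hy (Or.inl ⟨hx1, hy1⟩)
    · exact mem_bp hxy hx hy (Or.inr ⟨hx1, hy1⟩)
    · exact absurd (hx1.trans hy1.symm) hne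
  · rw [mem_union] at hf
    rcases hf with hf | hf
    · exact fac_sub_es hxy hx hy P a b f hf hxf hyf
    · simp [PT.fac] at hf

/-- the combinatorial facts from `Nodup` -/
theorem nod {a b w : Fin N} {l r : PT N} (h : (a :: b :: (PT.node w l r).vs).Nodup) :
    a ≠ b ∧ a ≠ w ∧ b ≠ w ∧ a ∉ l.vs ∧ a ∉ r.vs ∧ b ∉ l.vs ∧ b ∉ r.vs ∧ w ∉ l.vs ∧ w ∉ r.vs ∧
    (∀ x, x ∈ l.vs → x ∉ r.vs) ∧ (a :: w :: l.vs).Nodup ∧ (w :: b :: r.vs).Nodup := by
  simp only [PT.vs, List.nodup_cons, List.mem_cons, List.mem_append, not_or,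
    List.nodup_append] at h
  obtain ⟨⟨h1, h2, h3, h4⟩, ⟨h5, h6, h7⟩, ⟨h8, h9⟩, h10, h11, h12⟩ := h
  refine ⟨h1, h2, h5, h3, h4, h6, h7, h8, h9, fun x hx hx' => h12 x hx x hx' rfl, ?_, ?_⟩
  · simp only [List.nodup_cons, List.mem_cons, not_or]
    exact ⟨⟨h2, h3⟩, h8, h10⟩
  · simp only [List.nodup_cons, List.mem_cons, not_or]
    exact ⟨⟨fun h => h5 h.symm, h9⟩, h7, h11⟩

theorem V_node (a b w : Fin N) (l r : PT N) : V a b (PT.node w l r) = V a w l ∪ V w b r := by
  ext x
  rw [mem_union, mem_V, mem_V, mem_V]
  simp only [PT.vs, List.mem_cons, List.mem_append]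
  tauto

open Classical in
theorem cnt {a b w : Fin N} {l r : PT N} (A : Finset (Fin N))
    (h : (a :: b :: (PT.node w l r).vs).Nodup) :
    (A ∩ V a b (PT.node w l r)).card + (if w ∈ A then 1 else 0) =
      (A ∩ V a w l).card + (A ∩ V w b r).card := by
  obtain ⟨h1, h2, h3, h4, h5, h6, h7, h8, h9, h10, -, -⟩ := nod h
  rw [← card_union_add_card_inter]
  congr 1
  · congr 1
    rw [V_node, inter_union_distrib_left]
  · have : A ∩ V a w l ∩ (A ∩ V w b r) = if w ∈ A then {w} else ∅ := by
      ext x
      simp only [mem_inter, mem_V]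
      constructor
      · rintro ⟨⟨hA, hx⟩, -, hx'⟩
        have hxw : x = w := by
          rcases hx with rfl | rfl | hx
          · rcases hx' with hx' | hx' | hx'
            · exact hx'
            · exact absurd hx' h1
            · exact absurd hx' h5
          · rfl
          · rcases hx' with hx' | rfl | hx'
            · exact hx'
            · exact absurd hx h6
            · exact absurd hx' (h10 _ hx)
        subst hxw
        rw [if_pos hA]; simp
      · intro hx
        split_ifs at hx with hw
        · rw [mem_singleton] at hx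
          subst hx
          exact ⟨⟨hw, Or.inr (Or.inl rfl)⟩, hw, Or.inl rfl⟩
        · simp at hx
    rw [this]
    split_ifs <;> simp

open Classical in
theorem two_le {a b : Fin N} (hab : a ≠ b) (P : PT N) (A : Finset (Fin N)) :
    (if a ∈ A then 1 else 0) + (if b ∈ A then 1 else 0) ≤ (A ∩ V a b P).card := by
  by_cases ha : a ∈ A <;> by_cases hb : b ∈ A
  · rw [if_pos ha, if_pos hb]
    show 2 ≤ _
    rw [← card_pair hab]
    apply card_le_card
    intro x hx
    rw [mem_insert, mem_singleton] at hx
    rw [mem_inter, mem_V]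
    rcases hx with rfl | rfl
    · exact ⟨ha, Or.inl rfl⟩
    · exact ⟨hb, Or.inr (Or.inl rfl)⟩
  · rw [if_pos ha, if_neg hb, add_zero, Nat.one_le_iff_ne_zero, Finset.card_ne_zero]
    exact ⟨a, by rw [mem_inter, mem_V]; exact ⟨ha, Or.inl rfl⟩⟩
  · rw [if_neg ha, if_pos hb, zero_add, Nat.one_le_iff_ne_zero, Finset.card_ne_zero]
    exact ⟨b, by rw [mem_inter, mem_V]; exact ⟨hb, Or.inr (Or.inl rfl)⟩⟩
  · rw [if_neg ha, if_neg hb]
    exact Nat.zero_le _

open Classical in
theorem and_le (a b : Prop) [Decidable a] [Decidable b] :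
    (if a ∧ b then 1 else 0 : ℕ) ≤ (if a then 1 else 0) ∧
      (if a ∧ b then 1 else 0 : ℕ) ≤ (if b then 1 else 0) := by
  by_cases ha : a <;> by_cases hb : b <;> simp [ha, hb]

theorem ec_le (A : Finset (Fin N)) (P : PT N) : ∀ a b : Fin N, (a :: b :: P.vs).Nodup →
    (2 ≤ (A ∩ V a b P).card → ec A a b P + 3 ≤ 2 * (A ∩ V a b P).card) ∧
    ((A ∩ V a b P).card ≤ 1 → ec A a b P = 0) := by
  classical
  induction P with
  | nil =>
    intro a b h
    have hab : a ≠ b := by
      intro hab; subst hab; simp at h
    have h2 := two_le hab PT.nil A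
    have h3 : (A ∩ V a b PT.nil).card ≤ 2 := by
      refine le_trans (card_le_card inter_subset_right) ?_
      unfold V
      simp only [PT.vs, List.toFinset_nil, insert_empty_eq]
      exact card_le_two
    unfold ec
    have h4 := (and_le (a ∈ A) (b ∈ A)).1
    have h5 := (and_le (a ∈ A) (b ∈ A)).2
    by_cases h0 : a ∈ A ∧ b ∈ A
    · rw [if_pos h0.1, if_pos h0.2] at h2
      rw [if_pos h0]
      constructor <;> intro h <;> omega
    · rw [if_neg h0]
      constructor <;> intro h <;> omega
  | node w l r ihl ihr =>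
    intro a b h
    obtain ⟨h1, h2, h3, h4, h5, h6, h7, h8, h9, h10, h11, h12⟩ := nod h
    have c := cnt A h
    have e1 := ihl a w h11
    have e2 := ihr w b h12
    have t1 := two_le h2 l A
    have t2 := two_le h3.symm r A
    have a1 := (and_le (a ∈ A) (b ∈ A)).1
    have a2 := (and_le (a ∈ A) (b ∈ A)).2
    have u : (if a ∈ A ∧ b ∈ A then 1 else 0 : ℕ) ≤ 1 := by split_ifs <;> omega
    unfold ec
    generalize (if a ∈ A ∧ b ∈ A then 1 else 0 : ℕ) = δ at *
    generalize (if a ∈ A then 1 else 0 : ℕ) = δa at *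
    generalize (if b ∈ A then 1 else 0 : ℕ) = δb at *
    generalize hδw : (if w ∈ A then 1 else 0 : ℕ) = δw at *
    have uw : δw ≤ 1 := by rw [← hδw]; split_ifs <;> omega
    generalize (A ∩ V a b (PT.node w l r)).card = n at *
    generalize (A ∩ V a w l).card = n1 at *
    generalize (A ∩ V w b r).card = n2 at *
    obtain ⟨e11, e12⟩ := e1
    obtain ⟨e21, e22⟩ := e2
    rcases Nat.lt_or_ge 1 n1 with hn1 | hn1
    · have := e11 hn1
      rcases Nat.lt_or_ge 1 n2 with hn2 | hn2
      · have := e21 hn2
        constructor <;> intro h <;> omega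
      · have := e22 hn2
        constructor <;> intro h <;> omega
    · have := e12 hn1
      rcases Nat.lt_or_ge 1 n2 with hn2 | hn2
      · have := e21 hn2
        constructor <;> intro h <;> omega
      · have := e22 hn2
        constructor <;> intro h <;> omega

theorem sub_single {A : Finset (Fin N)} {w : Fin N} {W : Finset (Fin N)} (hw : w ∈ W)
    (h : (A ∩ W).card ≤ (open Classical in if w ∈ A then 1 else 0)) :
    ∀ x ∈ A, x ∈ W → x = w := by
  classical
  intro x hx hxW
  by_cases hwA : w ∈ A
  · rw [if_pos hwA] at h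
    exact card_le_one.1 h x (mem_inter.2 ⟨hx, hxW⟩) w (mem_inter.2 ⟨hwA, hw⟩)
  · rw [if_neg hwA] at h
    have : A ∩ W = ∅ := card_eq_zero.1 (Nat.le_zero.1 h)
    exact absurd (mem_inter.2 ⟨hx, hxW⟩) (by rw [this]; simp)

theorem claim (A : Finset (Fin N)) (v : Fin N) (hv : v ∉ A) (P : PT N) :
    ∀ (a b : Fin N) (R : PT N), (a :: b :: (P.vs ++ R.vs)).Nodup → 2 ≤ (A ∩ V a b P).card →
    2 * (A ∩ V a b P).card ≤ ec A a b P + 3 → v ∈ V a b P →
    ∃ D', Dsc.Eqv ⟨a, b, P, R⟩ D' ∧
      (∀ x ∈ A, x ∈ V a b P → x = D'.a ∨ x = D'.b ∨ x ∈ D'.P.vs) ∧ v ∈ D'.R.vs ∧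
      (a ∈ A → b ∈ A → ∀ x ∈ R.vs, x ∈ D'.P.vs) := by
  classical
  induction P with
  | nil =>
    intro a b R h h2 h3 h4
    exfalso
    have hab : a ≠ b := by
      intro hab; subst hab; simp at h
    have h5 : ∀ x ∈ V a b PT.nil, x ∈ A := by
      have hc : (V a b PT.nil : Finset (Fin N)).card ≤ 2 := by
        unfold V
        simp only [PT.vs, List.toFinset_nil, insert_empty_eq]
        exact card_le_two
      have : A ∩ V a b PT.nil = V a b PT.nil :=
        eq_of_subset_of_card_le inter_subset_right (by omega)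
      intro x hx
      rw [← this] at hx
      exact (mem_inter.1 hx).1
    exact hv (h5 v h4)
  | node w l r ihl ihr =>
    intro a b R h hn2 hn3 hvV
    have h0 : (a :: b :: (PT.node w l r).vs).Nodup := by
      refine List.Nodup.sublist ?_ h
      simp
    obtain ⟨h1, h2, h3, h4, h5, h6, h7, h8, h9, h10, h11, h12⟩ := nod h0
    have hl : (a :: w :: (l.vs ++ (PT.node b r R).vs)).Nodup := by
      refine (List.Perm.nodup_iff ?_).1 h
      simp only [PT.vs]
      rw [List.perm_iff_count]
      intro x
      simp only [List.count_cons, List.count_append]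
      omega
    have hr : (w :: b :: (r.vs ++ (PT.node a R l).vs)).Nodup := by
      refine (List.Perm.nodup_iff ?_).1 h
      simp only [PT.vs]
      rw [List.perm_iff_count]
      intro x
      simp only [List.count_cons, List.count_append]
      omega
    have c := cnt A h0
    have e1 := ec_le A l a w h11
    have e2 := ec_le A r w b h12
    have t1 := two_le h2 l A
    have t2 := two_le h3.symm r A
    have a1 := (and_le (a ∈ A) (b ∈ A)).1
    have a2 := (and_le (a ∈ A) (b ∈ A)).2
    have Vn := V_node a b w l r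
    have IHl := ihl a w (PT.node b r R) hl
    have IHr := ihr w b (PT.node a R l) hr
    have mvl : Dsc.Eqv ⟨a, b, PT.node w l r, R⟩ ⟨a, w, l, PT.node b r R⟩ :=
      Relation.ReflTransGen.single (Dsc.Mv.lf a b w l r R)
    have mvr : Dsc.Eqv ⟨a, b, PT.node w l r, R⟩ ⟨w, b, r, PT.node a R l⟩ :=
      Relation.ReflTransGen.single (Dsc.Mv.rt a b w l r R)
    have s1 := sub_single (A := A) (w := w) (W := V w b r) (by rw [mem_V]; exact Or.inl rfl)
    have s2 := sub_single (A := A) (w := w) (W := V a w l) (by rw [mem_V]; exact Or.inr (Or.inl rfl))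
    have hvV' : v ∈ V a w l ∨ v ∈ V w b r := by rw [Vn, mem_union] at hvV; exact hvV
    unfold ec at hn3
    by_cases hab : a ∈ A ∧ b ∈ A
    · -- both ends in A
      rw [if_pos hab] at hn3 a1 a2
      rw [if_pos hab.1] at t1
      rw [if_pos hab.2] at t2
      obtain ⟨e11, e12⟩ := e1
      obtain ⟨e21, e22⟩ := e2
      by_cases hw : w ∈ A
      · rw [if_pos hw] at t1 t2 c
        have f1 := e11 (by omega)
        have f2 := e21 (by omega)
        have hvne : v ≠ a ∧ v ≠ b ∧ v ≠ w :=
          ⟨fun h => hv (h ▸ hab.1), fun h => hv (h ▸ hab.2), fun h => hv (h ▸ hw)⟩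
        rcases hvV' with hvl | hvr
        · obtain ⟨D', hD, hA, hvD, hs⟩ := IHl (by omega) (by omega) hvl
          have hs' := hs hab.1 hw
          refine ⟨D', mvl.trans hD, ?_, hvD, ?_⟩
          · intro x hx hxV
            rw [Vn, mem_union] at hxV
            rcases hxV with hxV | hxV
            · exact hA x hx hxV
            · rw [mem_V] at hxV
              rcases hxV with rfl | rfl | hxV
              · exact hA x hx (by rw [mem_V]; exact Or.inr (Or.inl rfl))
              · exact Or.inr (Or.inr (hs' x (by simp [PT.vs])))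
              · exact Or.inr (Or.inr (hs' x (by simp [PT.vs, hxV])))
          · intro _ _ x hx
            exact hs' x (by simp [PT.vs, hx])
        · obtain ⟨D', hD, hA, hvD, hs⟩ := IHr (by omega) (by omega) hvr
          have hs' := hs hw hab.2
          refine ⟨D', mvr.trans hD, ?_, hvD, ?_⟩
          · intro x hx hxV
            rw [Vn, mem_union] at hxV
            rcases hxV with hxV | hxV
            · rw [mem_V] at hxV
              rcases hxV with rfl | rfl | hxV
              · exact Or.inr (Or.inr (hs' x (by simp [PT.vs])))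
              · exact hA x hx (by rw [mem_V]; exact Or.inl rfl)
              · exact Or.inr (Or.inr (hs' x (by simp [PT.vs, hxV])))
            · exact hA x hx hxV
          · intro _ _ x hx
            exact hs' x (by simp [PT.vs, hx])
      · -- w not in A: then A = {a, b}
        rw [if_neg hw] at t1 t2 c
        have hcard : (A ∩ V a b (PT.node w l r)).card = 2 := by
          rcases Nat.lt_or_ge 1 (A ∩ V a w l).card with g1 | g1
          · have := e11 g1
            rcases Nat.lt_or_ge 1 (A ∩ V w b r).card with g2 | g2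
            · have := e21 g2
              omega
            · have := e22 g2
              omega
          · have := e12 g1
            rcases Nat.lt_or_ge 1 (A ∩ V w b r).card with g2 | g2
            · have := e21 g2
              omega
            · have := e22 g2
              omega
        have heq : ({a, b} : Finset (Fin N)) = A ∩ V a b (PT.node w l r) := by
          apply eq_of_subset_of_card_le
          · intro x hx
            rw [mem_insert, mem_singleton] at hx
            rw [mem_inter, mem_V]
            rcases hx with rfl | rfl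
            · exact ⟨hab.1, Or.inl rfl⟩
            · exact ⟨hab.2, Or.inr (Or.inl rfl)⟩
          · rw [hcard, card_pair h1]
        refine ⟨⟨b, a, R, PT.node w l r⟩, Relation.ReflTransGen.single (Dsc.Mv.sw a b _ R), ?_, ?_, ?_⟩
        · intro x hx hxV
          have : x ∈ ({a, b} : Finset (Fin N)) := by rw [heq]; exact mem_inter.2 ⟨hx, hxV⟩
          rw [mem_insert, mem_singleton] at this
          rcases this with rfl | rfl
          · exact Or.inr (Or.inl rfl)
          · exact Or.inl rfl
        · rw [mem_V] at hvV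
          rcases hvV with rfl | rfl | hvV
          · exact absurd hab.1 hv
          · exact absurd hab.2 hv
          · exact hvV
        · intro _ _ x hx
          exact hx
    · -- not both ends in A
      rw [if_neg hab] at hn3
      obtain ⟨e11, e12⟩ := e1
      obtain ⟨e21, e22⟩ := e2
      have uw : (if w ∈ A then 1 else 0 : ℕ) ≤ 1 := by split_ifs <;> omega
      have key : ((A ∩ V w b r).card ≤ (if w ∈ A then 1 else 0) ∧
          2 ≤ (A ∩ V a w l).card ∧ 2 * (A ∩ V a w l).card ≤ ec A a w l + 3) ∨
          ((A ∩ V a w l).card ≤ (if w ∈ A then 1 else 0) ∧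
          2 ≤ (A ∩ V w b r).card ∧ 2 * (A ∩ V w b r).card ≤ ec A w b r + 3) := by
        generalize (if w ∈ A then 1 else 0 : ℕ) = δw at *
        rcases Nat.lt_or_ge 1 (A ∩ V a w l).card with g1 | g1
        · have := e11 g1
          rcases Nat.lt_or_ge 1 (A ∩ V w b r).card with g2 | g2
          · have := e21 g2
            omega
          · have := e22 g2
            left
            omega
        · have := e12 g1
          rcases Nat.lt_or_ge 1 (A ∩ V w b r).card with g2 | g2
          · have := e21 g2
            right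
            omega
          · have := e22 g2
            omega
      rcases key with ⟨k1, k2, k3⟩ | ⟨k1, k2, k3⟩
      · have s := s1 k1
        have sub : ∀ x ∈ A, x ∈ V a b (PT.node w l r) → x ∈ V a w l := by
          intro x hx hxV
          rw [Vn, mem_union] at hxV
          rcases hxV with hxV | hxV
          · exact hxV
          · rw [s x hx hxV, mem_V]
            exact Or.inr (Or.inl rfl)
        by_cases hvl : v ∈ V a w l
        · obtain ⟨D', hD, hA, hvD, hs⟩ := IHl k2 k3 hvl
          exact ⟨D', mvl.trans hD, fun x hx hxV => hA x hx (sub x hx hxV), hvD,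
            fun ha hb => absurd ⟨ha, hb⟩ hab⟩
        · refine ⟨⟨a, w, l, PT.node b r R⟩, mvl, ?_, ?_, fun ha hb => absurd ⟨ha, hb⟩ hab⟩
          · intro x hx hxV
            have := sub x hx hxV
            rw [mem_V] at this
            exact this
          · rcases hvV' with hv' | hv'
            · exact absurd hv' hvl
            · rw [mem_V] at hv'
              rcases hv' with rfl | rfl | hv'
              · exact absurd (by rw [mem_V]; exact Or.inr (Or.inl rfl)) hvl
              · simp [PT.vs]
              · simp [PT.vs, hv']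
      · have s := s2 k1
        have sub : ∀ x ∈ A, x ∈ V a b (PT.node w l r) → x ∈ V w b r := by
          intro x hx hxV
          rw [Vn, mem_union] at hxV
          rcases hxV with hxV | hxV
          · rw [s x hx hxV, mem_V]
            exact Or.inl rfl
          · exact hxV
        by_cases hvl : v ∈ V w b r
        · obtain ⟨D', hD, hA, hvD, hs⟩ := IHr k2 k3 hvl
          exact ⟨D', mvr.trans hD, fun x hx hxV => hA x hx (sub x hx hxV), hvD,
            fun ha hb => absurd ⟨ha, hb⟩ hab⟩
        · refine ⟨⟨w, b, r, PT.node a R l⟩, mvr, ?_, ?_, fun ha hb => absurd ⟨ha, hb⟩ hab⟩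
          · intro x hx hxV
            have := sub x hx hxV
            rw [mem_V] at this
            exact this
          · rcases hvV' with hv' | hv'
            · rw [mem_V] at hv'
              rcases hv' with rfl | rfl | hv'
              · simp [PT.vs]
              · exact absurd (by rw [mem_V]; exact Or.inl rfl) hvl
              · simp [PT.vs, hv']
            · exact absurd hv' hvl

/-- every disc is equivalent to one with an empty right side -/
theorem norm (P : PT N) : ∀ (a b : Fin N) (R : PT N),
    ∃ (a' b' : Fin N) (P' : PT N), Dsc.Eqv ⟨a, b, P, R⟩ ⟨a', b', P', PT.nil⟩ := by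
  induction P with
  | nil =>
    intro a b R
    exact ⟨b, a, R, Relation.ReflTransGen.single (Dsc.Mv.sw a b _ R)⟩
  | node w l r ihl ihr =>
    intro a b R
    obtain ⟨a', b', P', h⟩ := ihl a w (PT.node b r R)
    exact ⟨a', b', P', Relation.ReflTransGen.head (Dsc.Mv.lf a b w l r R) h⟩

end B7

theorem t_B7 (hB1 : S_B1) : S_B7 := by
  classical
  intro N D hD A hA2 hAD hE v hv hvA
  obtain ⟨a, b, P, R⟩ := D
  obtain ⟨a', b', P', hN⟩ := B7.norm P a b R
  obtain ⟨b1, b2, b3, -, -⟩ := hB1 N _ _ hN
  have hV : ∀ x, x ∈ (Dsc.mk a b P R).vl ↔ x ∈ B7.V a' b' P' := by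
    intro x
    rw [b1.mem_iff, B7.mem_V]
    simp [Dsc.vl, PT.vs]
  have hAV : A ∩ B7.V a' b' P' = A := by
    apply inter_eq_left.2
    intro x hx
    exact (hV x).1 (hAD x hx)
  have hnd : (a' :: b' :: (P'.vs ++ (PT.nil : PT N).vs)).Nodup := b2.1 hD
  have hle := B7.edg_card_le A a' b' P'
  rw [b3] at hE
  obtain ⟨D', h1, h2, h3, -⟩ := B7.claim A v hvA P' a' b' PT.nil hnd (by rw [hAV]; exact hA2)
    (by rw [hAV]; omega) ((hV v).1 hv)
  exact ⟨D', hN.trans h1, fun x hx => h2 x hx ((hV x).1 (hAD x hx)), h3⟩

end Pool.Agent.Lib.MP_9f84a9_co
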