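import Pool.Agent.Lib.MP_9f84a9_co.StmX

/-!
# MP_9f84a9_co, piece [GP X1]: symbolic representation of a configuration
-/

set_option autoImplicit false

namespace Pool.Agent.Lib.MP_9f84a9_co

open Finset

namespace X1

theorem net {N k : ℕ} (A : Net N) : ∀ L : List (Fin k), L.length = A.nodes.length →
    ∃ s : SNet N k, s.names = L ∧ ∀ z : Fin k → Pt N, L.map z = A.nodes → s.real z = A := by
  induction A with
  | leaf v =>
    intro L hL
    have h0 : L = [] := List.length_eq_zero_iff.1 hL
    exact ⟨SNet.leaf v, h0.symm, fun z _ => rfl⟩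
  | node x l r ihl ihr =>
    intro L hL
    have hn : (Net.node x l r).nodes = x :: (l.nodes ++ r.nodes) := rfl
    rw [hn, List.length_cons, List.length_append] at hL
    match L, hL with
    | i :: L', hL =>
      rw [List.length_cons] at hL
      have hL' : L'.length = l.nodes.length + r.nodes.length := by omega
      obtain ⟨s1, hs1, hz1⟩ := ihl (L'.take l.nodes.length) (by
        rw [List.length_take]
        omega)
      obtain ⟨s2, hs2, hz2⟩ := ihr (L'.drop l.nodes.length) (by
        rw [List.length_drop]
        omega)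
      refine ⟨SNet.node i s1 s2, ?_, ?_⟩
      · show i :: (s1.names ++ s2.names) = i :: L'
        rw [hs1, hs2, List.take_append_drop]
      · intro z hz
        rw [hn, List.map_cons] at hz
        obtain ⟨h1, h2⟩ := List.cons.inj hz
        have h3 : (L'.take l.nodes.length).map z = l.nodes := by
          rw [List.map_take, h2, List.take_left]
        have h4 : (L'.drop l.nodes.length).map z = r.nodes := by
          rw [List.map_drop, h2, List.drop_left]
        show Net.node (z i) (s1.real z) (s2.real z) = Net.node x l r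
        rw [h1, hz1 z h3, hz2 z h4]

theorem piece {N k : ℕ} (q : Piece N) (hq : q.nd.length ≤ k) :
    ∃ (t : SP N k) (y : Dat N k), t.names.Nodup ∧ t.D = q.D ∧ t.lab = q.lab ∧ y.1 = q.p ∧
      t.real y = q := by
  obtain ⟨z, hz⟩ : ∃ z : Fin k → Pt N, z = fun i : Fin k =>
      if h : i.val < q.nd.length then q.nd[i.val] else 0 := ⟨_, rfl⟩
  have hLl : ((List.finRange k).take q.nd.length).length = q.nd.length := by
    rw [List.length_take, List.length_finRange]
    omega
  have hLz : ((List.finRange k).take q.nd.length).map z = q.nd := by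
    apply List.ext_getElem
    · rw [List.length_map, hLl]
    · intro n h1 h2
      rw [List.getElem_map, List.getElem_take, List.getElem_finRange]
      have hzn : ∀ i : Fin k, i.val = n → z i = q.nd[n] := by
        intro i hi
        subst hi
        rw [hz]
        exact dif_pos h2
      exact hzn _ rfl
  obtain ⟨L, hL⟩ : ∃ L : List (Fin k), L = (List.finRange k).take q.nd.length := ⟨_, rfl⟩
  have hnd : L.Nodup := by
    rw [hL]
    exact (List.nodup_finRange k).sublist (List.take_sublist _ _)
  rw [← hL] at hLl hLz
  have hq' : q.nd = q.T.1.nodes ++ q.T.2.nodes := rfl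
  rw [hq'] at hLl hLz
  rw [List.length_append] at hLl
  obtain ⟨s1, hs1, hz1⟩ := net (k := k) q.T.1 (L.take q.T.1.nodes.length) (by
    rw [List.length_take]
    omega)
  obtain ⟨s2, hs2, hz2⟩ := net (k := k) q.T.2 (L.drop q.T.1.nodes.length) (by
    rw [List.length_drop]
    omega)
  refine ⟨⟨q.D, q.lab, (s1, s2)⟩, (q.p, z), ?_, rfl, rfl, rfl, ?_⟩
  · show (s1.names ++ s2.names).Nodup
    rw [hs1, hs2, List.take_append_drop]
    exact hnd
  · have h3 : (L.take q.T.1.nodes.length).map z = q.T.1.nodes := by
      rw [List.map_take, hLz, List.take_left]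
    have h4 : (L.drop q.T.1.nodes.length).map z = q.T.2.nodes := by
      rw [List.map_drop, hLz, List.drop_left]
    show (⟨q.D, q.p, q.lab, (s1.real z, s2.real z)⟩ : Piece N) = q
    rw [hz1 z h3, hz2 z h4]

end X1

theorem t_X1 : S_X1 := by
  intro N k S hS
  have h : ∀ j : Fin S.length, ∃ (t : SP N k) (y : Dat N k), t.names.Nodup ∧
      t.D = (S.get j).D ∧ t.lab = (S.get j).lab ∧ y.1 = (S.get j).p ∧ t.real y = S.get j :=
    fun j => X1.piece (S.get j) (hS _ (S.get_mem j))
  choose t y h1 h2 h3 h4 h5 using h
  refine ⟨t, y, h1, ?_, fun j => ⟨h2 j, h3 j, h4 j, h5 j⟩⟩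
  unfold mk
  have h6 : (fun j => (t j).real (y j)) = S.get := funext h5
  rw [h6, List.ofFn_get]

end Pool.Agent.Lib.MP_9f84a9_co
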