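import Pool.Agent.Lib.MP_9f84a9_co.StmB

set_option autoImplicit false

namespace Pool.Agent.Lib.MP_9f84a9_co

open Finset

namespace B6

variable {N : ℕ}

/-- the edges inside `B` of the polygon over `(a,b)` -/
noncomputable def eg (a b : Fin N) (P : PT N) (B : Finset (Fin N)) : Finset (Fin N × Fin N) := by
  classical
  exact univ.filter fun e => e.1 < e.2 ∧ e.1 ∈ B ∧ e.2 ∈ B ∧
    ((e.1 = a ∧ e.2 = b) ∨ (e.1 = b ∧ e.2 = a) ∨ ∃ f ∈ P.fac a b, e.1 ∈ f ∧ e.2 ∈ f)

theorem mem_eg (a b : Fin N) (P : PT N) (B : Finset (Fin N)) (x y : Fin N) :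
    (x, y) ∈ eg a b P B ↔ x < y ∧ x ∈ B ∧ y ∈ B ∧
      ((x = a ∧ y = b) ∨ (x = b ∧ y = a) ∨ ∃ f ∈ P.fac a b, x ∈ f ∧ y ∈ f) := by
  classical
  unfold eg
  simp

theorem fac_vs (P : PT N) : ∀ (a b : Fin N), ∀ f ∈ P.fac a b, ∀ v ∈ f,
    v = a ∨ v = b ∨ v ∈ P.vs := by
  induction P with
  | nil =>
    intro a b f hf
    simp [PT.fac] at hf
  | node w l r hl hr =>
    intro a b f hf v hv
    rw [PT.fac, Finset.mem_insert, Finset.mem_union] at hf
    rw [PT.vs, List.mem_cons, List.mem_append]
    rcases hf with rfl | hf | hf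
    · simp only [Finset.mem_insert, Finset.mem_singleton] at hv
      tauto
    · rcases hl a w f hf v hv with h | h | h <;> tauto
    · rcases hr w b f hf v hv with h | h | h <;> tauto

open Classical in
theorem eg_card (P : PT N) : ∀ (a b : Fin N) (B : Finset (Fin N)), (a :: b :: P.vs).Nodup →
    (∀ v ∈ B, v = a ∨ v = b ∨ v ∈ P.vs) → (eg a b P B).card ≤ 2 * B.card - 3 := by
  induction P with
  | nil =>
    intro a b B hn hB
    have hab : a ≠ b := by
      intro h
      simp [h] at hn
    by_cases h : a ∈ B ∧ b ∈ B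
    · have h2 : 2 ≤ B.card := by
        have : ({a, b} : Finset (Fin N)) ⊆ B := by
          intro v hv
          simp only [Finset.mem_insert, Finset.mem_singleton] at hv
          rcases hv with rfl | rfl
          · exact h.1
          · exact h.2
        calc 2 = ({a, b} : Finset (Fin N)).card := (Finset.card_pair hab).symm
          _ ≤ B.card := Finset.card_le_card this
      have h1 : (eg a b PT.nil B) ⊆ {(min a b, max a b)} := by
        rintro ⟨x, y⟩ hxy
        rw [mem_eg] at hxy
        obtain ⟨hlt, -, -, ⟨rfl, rfl⟩ | ⟨rfl, rfl⟩ | ⟨f, hf, -⟩⟩ := hxy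
        · rw [Finset.mem_singleton, min_eq_left hlt.le, max_eq_right hlt.le]
        · rw [Finset.mem_singleton, min_eq_right hlt.le, max_eq_left hlt.le]
        · simp [PT.fac] at hf
      have h3 := Finset.card_le_card h1
      rw [Finset.card_singleton] at h3
      omega
    · have h1 : (eg a b PT.nil B) = ∅ := by
        rw [Finset.eq_empty_iff_forall_notMem]
        rintro ⟨x, y⟩ hxy
        rw [mem_eg] at hxy
        obtain ⟨hlt, hx, hy, ⟨rfl, rfl⟩ | ⟨rfl, rfl⟩ | ⟨f, hf, -⟩⟩ := hxy
        · exact h ⟨hx, hy⟩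
        · exact h ⟨hy, hx⟩
        · simp [PT.fac] at hf
      rw [h1, Finset.card_empty]
      exact Nat.zero_le _
  | node w l r hl hr =>
    intro a b B hn hB
    simp only [PT.vs, List.nodup_cons, List.mem_cons, List.mem_append, List.nodup_append,
      not_or] at hn
    obtain ⟨⟨hab, haw, hal, har⟩, ⟨hbw, hbl, hbr⟩, ⟨hwl, hwr⟩, hnl, hnr, hlr⟩ := hn
    set B1 := B.filter (fun v => v = a ∨ v = w ∨ v ∈ l.vs) with hB1
    set B2 := B.filter (fun v => v = w ∨ v = b ∨ v ∈ r.vs) with hB2
    have i1 := hl a w B1 (by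
      simp only [List.nodup_cons, List.mem_cons, not_or]
      exact ⟨⟨haw, hal⟩, hwl, hnl⟩) (by
      intro v hv
      exact (Finset.mem_filter.mp hv).2)
    have i2 := hr w b B2 (by
      simp only [List.nodup_cons, List.mem_cons, not_or]
      exact ⟨⟨fun h => hbw h.symm, hwr⟩, hbr, hnr⟩) (by
      intro v hv
      exact (Finset.mem_filter.mp hv).2)
    have hU : B1 ∪ B2 = B := by
      ext v
      rw [Finset.mem_union, hB1, hB2, Finset.mem_filter, Finset.mem_filter]
      constructor
      · rintro (h | h) <;> exact h.1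
      · intro h
        have := hB v h
        simp only [PT.vs, List.mem_cons, List.mem_append] at this
        tauto
    have hI : B1 ∩ B2 = B.filter (fun v => v = w) := by
      ext v
      rw [Finset.mem_inter, hB1, hB2, Finset.mem_filter, Finset.mem_filter, Finset.mem_filter]
      constructor
      · rintro ⟨⟨h, h1⟩, -, h2⟩
        refine ⟨h, ?_⟩
        rcases h1 with rfl | rfl | h1
        · rcases h2 with h2 | h2 | h2
          · exact h2
          · exact absurd h2 hab
          · exact absurd h2 har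
        · rfl
        · rcases h2 with h2 | rfl | h2
          · exact h2
          · exact absurd h1 hbl
          · exact absurd rfl (hlr v h1 v h2)
      · rintro ⟨h, rfl⟩
        exact ⟨⟨h, Or.inr (Or.inl rfl)⟩, h, Or.inl rfl⟩
    have hc := Finset.card_union_add_card_inter B1 B2
    rw [hU, hI] at hc
    have hω : (B.filter (fun v => v = w)).card ≤ 1 := by
      rw [Finset.card_le_one]
      intro x hx y hy
      rw [(Finset.mem_filter.mp hx).2, (Finset.mem_filter.mp hy).2]
    have hα : (B.filter (fun v => v = a)).card + (B.filter (fun v => v = w)).card ≤ B1.card := by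
      rw [← Finset.card_union_of_disjoint]
      · apply Finset.card_le_card
        intro v hv
        rw [Finset.mem_union, Finset.mem_filter, Finset.mem_filter] at hv
        rw [hB1, Finset.mem_filter]
        tauto
      · rw [Finset.disjoint_left]
        intro v h1 h2
        exact haw ((Finset.mem_filter.mp h1).2.symm.trans (Finset.mem_filter.mp h2).2)
    have hβ : (B.filter (fun v => v = b)).card + (B.filter (fun v => v = w)).card ≤ B2.card := by
      rw [← Finset.card_union_of_disjoint]
      · apply Finset.card_le_card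
        intro v hv
        rw [Finset.mem_union, Finset.mem_filter, Finset.mem_filter] at hv
        rw [hB2, Finset.mem_filter]
        tauto
      · rw [Finset.disjoint_left]
        intro v h1 h2
        exact hbw ((Finset.mem_filter.mp h1).2.symm.trans (Finset.mem_filter.mp h2).2)
    have hδ : ∃ Z : Finset (Fin N × Fin N), Z.card ≤ 1 ∧ Z.card ≤ (B.filter (fun v => v = a)).card ∧
        Z.card ≤ (B.filter (fun v => v = b)).card ∧
        (a ∈ B → b ∈ B → (min a b, max a b) ∈ Z) := by
      by_cases h : a ∈ B ∧ b ∈ B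
      · refine ⟨{(min a b, max a b)}, ?_, ?_, ?_, fun _ _ => Finset.mem_singleton_self _⟩
        · rw [Finset.card_singleton]
        · rw [Finset.card_singleton]
          exact Finset.card_pos.mpr ⟨a, Finset.mem_filter.mpr ⟨h.1, rfl⟩⟩
        · rw [Finset.card_singleton]
          exact Finset.card_pos.mpr ⟨b, Finset.mem_filter.mpr ⟨h.2, rfl⟩⟩
      · exact ⟨∅, by simp, by simp, by simp, fun h1 h2 => absurd ⟨h1, h2⟩ h⟩
    obtain ⟨Z, z1, z2, z3, z4⟩ := hδ
    have hsub : eg a b (PT.node w l r) B ⊆ (eg a w l B1 ∪ eg w b r B2) ∪ Z := by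
      rintro ⟨x, y⟩ hxy
      rw [mem_eg] at hxy
      obtain ⟨hlt, hx, hy, h⟩ := hxy
      rw [Finset.mem_union, Finset.mem_union, mem_eg, mem_eg]
      have P1 : ∀ s t : Fin N, s = a → t = b → s ∈ B → t ∈ B → s < t → (s, t) ∈ Z := by
        rintro s t rfl rfl hs ht hst
        have := z4 hs ht
        rwa [min_eq_left hst.le, max_eq_right hst.le] at this
      have P2 : ∀ s t : Fin N, s = b → t = a → s ∈ B → t ∈ B → s < t → (s, t) ∈ Z := by
        rintro s t rfl rfl hs ht hst
        have := z4 ht hs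
        rwa [min_eq_right hst.le, max_eq_left hst.le] at this
      rcases h with ⟨hxa, hyb⟩ | ⟨hxb, hya⟩ | ⟨f, hf, hxf, hyf⟩
      · exact Or.inr (P1 x y hxa hyb hx hy hlt)
      · exact Or.inr (P2 x y hxb hya hx hy hlt)
      · rw [PT.fac, Finset.mem_insert, Finset.mem_union] at hf
        rcases hf with rfl | hf | hf
        · simp only [Finset.mem_insert, Finset.mem_singleton] at hxf hyf
          have hne : x ≠ y := hlt.ne
          have m1 : ∀ s, s ∈ B → (s = a ∨ s = w) → s ∈ B1 := fun s hs h => by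
            rw [hB1, Finset.mem_filter]
            tauto
          have m2 : ∀ s, s ∈ B → (s = b ∨ s = w) → s ∈ B2 := fun s hs h => by
            rw [hB2, Finset.mem_filter]
            tauto
          rcases hxf with hxa | hxb | hxw
          · rcases hyf with hya | hyb | hyw
            · exact absurd (hxa.trans hya.symm) hne
            · exact Or.inr (P1 x y hxa hyb hx hy hlt)
            · exact Or.inl (Or.inl ⟨hlt, m1 x hx (Or.inl hxa), m1 y hy (Or.inr hyw),
                Or.inl ⟨hxa, hyw⟩⟩)
          · rcases hyf with hya | hyb | hyw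
            · exact Or.inr (P2 x y hxb hya hx hy hlt)
            · exact absurd (hxb.trans hyb.symm) hne
            · exact Or.inl (Or.inr ⟨hlt, m2 x hx (Or.inl hxb), m2 y hy (Or.inr hyw),
                Or.inr (Or.inl ⟨hxb, hyw⟩)⟩)
          · rcases hyf with hya | hyb | hyw
            · exact Or.inl (Or.inl ⟨hlt, m1 x hx (Or.inr hxw), m1 y hy (Or.inl hya),
                Or.inr (Or.inl ⟨hxw, hya⟩)⟩)
            · exact Or.inl (Or.inr ⟨hlt, m2 x hx (Or.inr hxw), m2 y hy (Or.inl hyb),
                Or.inl ⟨hxw, hyb⟩⟩)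
            · exact absurd (hxw.trans hyw.symm) hne
        · refine Or.inl (Or.inl ⟨hlt, ?_, ?_, Or.inr (Or.inr ⟨f, hf, hxf, hyf⟩)⟩)
          · rw [hB1, Finset.mem_filter]
            exact ⟨hx, fac_vs l a w f hf x hxf⟩
          · rw [hB1, Finset.mem_filter]
            exact ⟨hy, fac_vs l a w f hf y hyf⟩
        · refine Or.inl (Or.inr ⟨hlt, ?_, ?_, Or.inr (Or.inr ⟨f, hf, hxf, hyf⟩)⟩)
          · rw [hB2, Finset.mem_filter]
            exact ⟨hx, fac_vs r w b f hf x hxf⟩
          · rw [hB2, Finset.mem_filter]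
            exact ⟨hy, fac_vs r w b f hf y hyf⟩
    have hcard := Finset.card_le_card hsub
    have hc1 := Finset.card_union_le (eg a w l B1 ∪ eg w b r B2) Z
    have hc2 := Finset.card_union_le (eg a w l B1) (eg w b r B2)
    omega

end B6

open Classical in
/-- B6 -/
theorem t_B6 : S_B6 := by
  intro N D hok A hA hAv
  obtain ⟨a, b, P, R⟩ := D
  have hn : (a :: b :: (P.vs ++ R.vs)).Nodup := hok
  simp only [List.nodup_cons, List.mem_cons, List.mem_append, List.nodup_append, not_or] at hn
  obtain ⟨⟨hab, haP, haR⟩, ⟨hbP, hbR⟩, hnP, hnR, hPR⟩ := hn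
  set A1 := A.filter (fun v => v = a ∨ v = b ∨ v ∈ P.vs) with hA1
  set A2 := A.filter (fun v => v = b ∨ v = a ∨ v ∈ R.vs) with hA2
  have i1 := B6.eg_card P a b A1 (by
    simp only [List.nodup_cons, List.mem_cons, not_or]
    exact ⟨⟨hab, haP⟩, hbP, hnP⟩) (fun v hv => (Finset.mem_filter.mp hv).2)
  have i2 := B6.eg_card R b a A2 (by
    simp only [List.nodup_cons, List.mem_cons, not_or]
    exact ⟨⟨fun h => hab h.symm, hbR⟩, haR, hnR⟩) (fun v hv => (Finset.mem_filter.mp hv).2)
  have hU : A1 ∪ A2 = A := by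
    ext v
    rw [Finset.mem_union, hA1, hA2, Finset.mem_filter, Finset.mem_filter]
    constructor
    · rintro (h | h) <;> exact h.1
    · intro h
      have := hAv v h
      simp only [Dsc.vl, List.mem_cons, List.mem_append] at this
      tauto
  have hI : A1 ∩ A2 = A.filter (fun v => v = a) ∪ A.filter (fun v => v = b) := by
    ext v
    rw [Finset.mem_inter, Finset.mem_union, hA1, hA2, Finset.mem_filter, Finset.mem_filter,
      Finset.mem_filter, Finset.mem_filter]
    constructor
    · rintro ⟨⟨h, h1⟩, -, h2⟩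
      rcases h1 with h1 | h1 | h1
      · exact Or.inl ⟨h, h1⟩
      · exact Or.inr ⟨h, h1⟩
      · rcases h2 with h2 | h2 | h2
        · exact Or.inr ⟨h, h2⟩
        · exact Or.inl ⟨h, h2⟩
        · exact absurd rfl (hPR v h1 v h2)
    · rintro (⟨h, h1⟩ | ⟨h, h1⟩)
      · exact ⟨⟨h, Or.inl h1⟩, h, Or.inr (Or.inl h1)⟩
      · exact ⟨⟨h, Or.inr (Or.inl h1)⟩, h, Or.inl h1⟩
  have hdis : Disjoint (A.filter (fun v => v = a)) (A.filter (fun v => v = b)) := by
    rw [Finset.disjoint_left]
    intro v h1 h2
    exact hab ((Finset.mem_filter.mp h1).2.symm.trans (Finset.mem_filter.mp h2).2)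
  have hc := Finset.card_union_add_card_inter A1 A2
  rw [hU, hI, Finset.card_union_of_disjoint hdis] at hc
  have hα : (A.filter (fun v => v = a)).card ≤ 1 := by
    rw [Finset.card_le_one]
    intro x hx y hy
    rw [(Finset.mem_filter.mp hx).2, (Finset.mem_filter.mp hy).2]
  have hβ : (A.filter (fun v => v = b)).card ≤ 1 := by
    rw [Finset.card_le_one]
    intro x hx y hy
    rw [(Finset.mem_filter.mp hx).2, (Finset.mem_filter.mp hy).2]
  have hle1 : (A.filter (fun v => v = a)).card + (A.filter (fun v => v = b)).card ≤ A1.card := by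
    rw [← Finset.card_union_of_disjoint hdis, ← hI]
    exact Finset.card_le_card Finset.inter_subset_left
  have hle2 : (A.filter (fun v => v = a)).card + (A.filter (fun v => v = b)).card ≤ A2.card := by
    rw [← Finset.card_union_of_disjoint hdis, ← hI]
    exact Finset.card_le_card Finset.inter_subset_right
  have hint : (A.filter (fun v => v = a)).card + (A.filter (fun v => v = b)).card ≤
      (B6.eg a b P A1 ∩ B6.eg b a R A2).card + 1 := by
    by_cases h : a ∈ A ∧ b ∈ A
    · have h1 : 1 ≤ (B6.eg a b P A1 ∩ B6.eg b a R A2).card := by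
        apply Finset.card_pos.mpr
        have ma1 : a ∈ A1 := Finset.mem_filter.mpr ⟨h.1, Or.inl rfl⟩
        have mb1 : b ∈ A1 := Finset.mem_filter.mpr ⟨h.2, Or.inr (Or.inl rfl)⟩
        have ma2 : a ∈ A2 := Finset.mem_filter.mpr ⟨h.1, Or.inr (Or.inl rfl)⟩
        have mb2 : b ∈ A2 := Finset.mem_filter.mpr ⟨h.2, Or.inl rfl⟩
        rcases lt_or_gt_of_ne hab with hlt | hlt
        · refine ⟨(a, b), ?_⟩
          rw [Finset.mem_inter, B6.mem_eg, B6.mem_eg]
          exact ⟨⟨hlt, ma1, mb1, Or.inl ⟨rfl, rfl⟩⟩, hlt, ma2, mb2, Or.inr (Or.inl ⟨rfl, rfl⟩)⟩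
        · refine ⟨(b, a), ?_⟩
          rw [Finset.mem_inter, B6.mem_eg, B6.mem_eg]
          exact ⟨⟨hlt, mb1, ma1, Or.inr (Or.inl ⟨rfl, rfl⟩)⟩, hlt, mb2, ma2, Or.inl ⟨rfl, rfl⟩⟩
      omega
    · have h1 : (A.filter (fun v => v = a)).card = 0 ∨ (A.filter (fun v => v = b)).card = 0 := by
        rw [not_and_or] at h
        rcases h with h | h
        · left
          rw [Finset.card_eq_zero, Finset.filter_eq_empty_iff]
          rintro v hv rfl
          exact h hv
        · right
          rw [Finset.card_eq_zero, Finset.filter_eq_empty_iff]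
          rintro v hv rfl
          exact h hv
      omega
  have hsub : edg (Dsc.mk a b P R).K A ⊆ B6.eg a b P A1 ∪ B6.eg b a R A2 := by
    rintro ⟨x, y⟩ hxy
    unfold edg at hxy
    simp only [Finset.mem_filter, Finset.mem_univ, true_and] at hxy
    obtain ⟨hlt, hx, hy, f, hf, hxf, hyf⟩ := hxy
    rw [Finset.mem_union, B6.mem_eg, B6.mem_eg]
    unfold Dsc.K at hf
    split_ifs at hf with h
    · rw [Finset.mem_singleton] at hf
      subst hf
      simp only [Finset.mem_insert, Finset.mem_singleton] at hxf hyf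
      left
      refine ⟨hlt, ?_, ?_, ?_⟩
      · rw [hA1, Finset.mem_filter]
        tauto
      · rw [hA1, Finset.mem_filter]
        tauto
      · have hne : x ≠ y := hlt.ne
        rcases hxf with h1 | h1 <;> rcases hyf with h2 | h2
        · exact absurd (h1.trans h2.symm) hne
        · exact Or.inl ⟨h1, h2⟩
        · exact Or.inr (Or.inl ⟨h1, h2⟩)
        · exact absurd (h1.trans h2.symm) hne
    · rw [Finset.mem_union] at hf
      rcases hf with hf | hf
      · left
        refine ⟨hlt, ?_, ?_, Or.inr (Or.inr ⟨f, hf, hxf, hyf⟩)⟩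
        · rw [hA1, Finset.mem_filter]
          exact ⟨hx, B6.fac_vs P a b f hf x hxf⟩
        · rw [hA1, Finset.mem_filter]
          exact ⟨hy, B6.fac_vs P a b f hf y hyf⟩
      · right
        refine ⟨hlt, ?_, ?_, Or.inr (Or.inr ⟨f, hf, hxf, hyf⟩)⟩
        · rw [hA2, Finset.mem_filter]
          exact ⟨hx, B6.fac_vs R b a f hf x hxf⟩
        · rw [hA2, Finset.mem_filter]
          exact ⟨hy, B6.fac_vs R b a f hf y hyf⟩
  have hcard := Finset.card_le_card hsub
  have hcu := Finset.card_union_add_card_inter (B6.eg a b P A1) (B6.eg b a R A2)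
  omega

end Pool.Agent.Lib.MP_9f84a9_co
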