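import Pool.Agent.Lib.MP_9f84a9_co.StmB

/-!
# MP_9f84a9_co, piece [B8]: an ear away from the centre edge
-/

set_option autoImplicit false

namespace Pool.Agent.Lib.MP_9f84a9_co

open Finset

private theorem b8_ear {N : ℕ} (P : PT N) : P ≠ PT.nil → ∀ (a b : Fin N) (R : PT N),
    ∃ (D' : Dsc N) (w : Fin N), Dsc.Eqv ⟨a, b, P, R⟩ D' ∧ D'.P = PT.node w PT.nil PT.nil ∧
      w ∈ P.vs := by
  induction P with
  | nil => exact fun h => absurd rfl h
  | node w l r ihl ihr =>
    intro _ a b R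
    by_cases hl : l = PT.nil
    · by_cases hr : r = PT.nil
      · subst hl
        subst hr
        exact ⟨_, w, Relation.ReflTransGen.refl, rfl, List.mem_cons_self⟩
      · obtain ⟨D', w', h1, h2, h3⟩ := ihr hr w b (PT.node a R l)
        refine ⟨D', w', Relation.ReflTransGen.head (Dsc.Mv.rt a b w l r R) h1, h2, ?_⟩
        exact List.mem_cons_of_mem _ (List.mem_append_right _ h3)
    · obtain ⟨D', w', h1, h2, h3⟩ := ihl hl a w (PT.node b r R)
      refine ⟨D', w', Relation.ReflTransGen.head (Dsc.Mv.lf a b w l r R) h1, h2, ?_⟩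
      exact List.mem_cons_of_mem _ (List.mem_append_left _ h3)

theorem t_B8 : S_B8 := by
  intro N D hD hne
  obtain ⟨a, b, P, R⟩ := D
  have hnd : (a :: b :: (P.vs ++ R.vs)).Nodup := hD
  have hmem : ∀ w, w ∈ P.vs ++ R.vs → w ≠ a ∧ w ≠ b := by
    intro w hw
    rw [List.nodup_cons, List.nodup_cons] at hnd
    obtain ⟨h1, h2, -⟩ := hnd
    refine ⟨fun h => h1 ?_, fun h => h2 ?_⟩
    · rw [← h]
      exact List.mem_cons_of_mem _ hw
    · rw [← h]
      exact hw
  by_cases hP : P = PT.nil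
  · have hR : R ≠ PT.nil := fun h => hne ⟨hP, h⟩
    obtain ⟨D', w, h1, h2, h3⟩ := b8_ear R hR b a P
    obtain ⟨h4, h5⟩ := hmem w (List.mem_append_right _ h3)
    exact ⟨D', w, Relation.ReflTransGen.head (Dsc.Mv.sw a b P R) h1, h2, h4, h5⟩
  · obtain ⟨D', w, h1, h2, h3⟩ := b8_ear P hP a b R
    obtain ⟨h4, h5⟩ := hmem w (List.mem_append_left _ h3)
    exact ⟨D', w, h1, h2, h4, h5⟩

end Pool.Agent.Lib.MP_9f84a9_co
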