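import Pool.Agent.Lib.MP_9f84a9_co.StmX

/-!
# MP_9f84a9_co, piece X3: invariance of nets under moving the centre edge
-/

set_option autoImplicit false

namespace Pool.Agent.Lib.MP_9f84a9_co

open Finset

namespace X3

private theorem leavesMv {N : ℕ} (T T' : Net N × Net N) (h : Net.Mv T T') :
    (T.1.leaves ++ T.2.leaves).Perm (T'.1.leaves ++ T'.2.leaves) := by
  cases h with
  | sw A B => exact List.perm_append_comm
  | lf z l r B =>
    simp only [Net.leaves, List.append_assoc]
    exact List.Perm.refl _
  | rt z l r B =>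
    simp only [Net.leaves]
    rw [← List.append_assoc]
    exact List.Perm.append_right _ List.perm_append_comm

private theorem nodesMv {N : ℕ} (T T' : Net N × Net N) (h : Net.Mv T T') :
    (T.1.nodes ++ T.2.nodes).Perm (T'.1.nodes ++ T'.2.nodes) := by
  cases h with
  | sw A B => exact List.perm_append_comm
  | lf z l r B =>
    simp only [Net.nodes, List.cons_append, List.append_assoc]
    exact List.perm_middle.symm
  | rt z l r B =>
    simp only [Net.nodes, List.cons_append]
    refine List.Perm.trans ?_ List.perm_middle.symm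
    apply List.Perm.cons
    rw [← List.append_assoc]
    exact List.Perm.append_right _ List.perm_append_comm

private theorem tlenMv {N : ℕ} (d : Pt N → Pt N → ℝ) (hd : ∀ x y, d x y = d y x)
    (T T' : Net N × Net N) (h : Net.Mv T T') : Net.tlen d T = Net.tlen d T' := by
  cases h with
  | sw A B =>
    simp only [Net.tlen]
    rw [hd A.top B.top]
    ring
  | lf z l r B =>
    show d z B.top + (d z l.top + d z r.top + l.len d + r.len d) + B.len d =
      d l.top z + l.len d + (d z r.top + d z B.top + r.len d + B.len d)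
    rw [hd z l.top]
    ring
  | rt z l r B =>
    show d z B.top + (d z l.top + d z r.top + l.len d + r.len d) + B.len d =
      d r.top z + r.len d + (d z l.top + d z B.top + l.len d + B.len d)
    rw [hd z r.top]
    ring

private theorem nodeDown {N : ℕ} (z : Pt N) : ∀ (A B : Net N), z ∈ A.nodes →
    ∃ T'', Net.Eqv (A, B) T'' ∧ ∃ l r, T''.1 = Net.node z l r := by
  intro A
  induction A with
  | leaf v =>
    intro B hz
    simp [Net.nodes] at hz
  | node z' l r ihl ihr =>
    intro B hz
    simp only [Net.nodes, List.mem_cons, List.mem_append] at hz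
    rcases hz with hz | hz | hz
    · subst hz
      exact ⟨(Net.node z l r, B), Relation.ReflTransGen.refl, l, r, rfl⟩
    · obtain ⟨T'', hT, h⟩ := ihl (Net.node z' r B) hz
      exact ⟨T'', Relation.ReflTransGen.head (Net.Mv.lf z' l r B) hT, h⟩
    · obtain ⟨T'', hT, h⟩ := ihr (Net.node z' l B) hz
      exact ⟨T'', Relation.ReflTransGen.head (Net.Mv.rt z' l r B) hT, h⟩

private theorem leafDown {N : ℕ} (v : Fin N) : ∀ (A B : Net N), v ∈ A.leaves →
    ∃ T'', Net.Eqv (A, B) T'' ∧ T''.1 = Net.leaf v := by
  intro A
  induction A with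
  | leaf u =>
    intro B hv
    simp only [Net.leaves, List.mem_singleton] at hv
    subst hv
    exact ⟨(Net.leaf v, B), Relation.ReflTransGen.refl, rfl⟩
  | node z' l r ihl ihr =>
    intro B hv
    simp only [Net.leaves, List.mem_append] at hv
    rcases hv with hv | hv
    · obtain ⟨T'', hT, h⟩ := ihl (Net.node z' r B) hv
      exact ⟨T'', Relation.ReflTransGen.head (Net.Mv.lf z' l r B) hT, h⟩
    · obtain ⟨T'', hT, h⟩ := ihr (Net.node z' l B) hv
      exact ⟨T'', Relation.ReflTransGen.head (Net.Mv.rt z' l r B) hT, h⟩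

end X3

theorem t_X3 : S_X3 := by
  intro N T T' hE
  refine ⟨?_, ?_, ?_, ?_, ?_⟩
  · unfold Net.Eqv at hE
    induction hE with
    | refl => exact List.Perm.refl _
    | tail _ hM ih => exact ih.trans (X3.leavesMv _ _ hM)
  · unfold Net.Eqv at hE
    induction hE with
    | refl => exact List.Perm.refl _
    | tail _ hM ih => exact ih.trans (X3.nodesMv _ _ hM)
  · intro d hd
    unfold Net.Eqv at hE
    induction hE with
    | refl => rfl
    | tail _ hM ih => exact ih.trans (X3.tlenMv d hd _ _ hM)
  · intro z hz
    obtain ⟨A, B⟩ := T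
    rw [List.mem_append] at hz
    rcases hz with hz | hz
    · obtain ⟨T'', hT, l, r, h⟩ := X3.nodeDown z A B hz
      exact ⟨T'', hT, by rw [h]; rfl, l, r, h⟩
    · obtain ⟨T'', hT, l, r, h⟩ := X3.nodeDown z B A hz
      exact ⟨T'', Relation.ReflTransGen.head (Net.Mv.sw A B) hT, by rw [h]; rfl, l, r, h⟩
  · intro v hv
    obtain ⟨A, B⟩ := T
    rw [List.mem_append] at hv
    rcases hv with hv | hv
    · exact X3.leafDown v A B hv
    · obtain ⟨T'', hT, h⟩ := X3.leafDown v B A hv
      exact ⟨T'', Relation.ReflTransGen.head (Net.Mv.sw A B) hT, h⟩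

end Pool.Agent.Lib.MP_9f84a9_co
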