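import Pool.Agent.Lib.MP_9f84a9_co.StmX

/-!
# MP_9f84a9_co, piece [X4]: common kernel vectors and joint surjectivity
-/

set_option autoImplicit false

namespace Pool.Agent.Lib.MP_9f84a9_co

open Finset

theorem t_X4 : S_X4 := by
  intro V _ _ _ t φ
  have hfin : Module.finrank ℝ (Fin t → ℝ) = t := Module.finrank_fin_fun ℝ
  refine ⟨fun h => ?_, fun h hinj r => ?_⟩
  · have hk : LinearMap.ker (LinearMap.pi φ) ≠ ⊥ :=
      LinearMap.ker_ne_bot_of_finrank_lt (by rw [hfin]; exact h)
    obtain ⟨v, hv, hv0⟩ := Submodule.exists_mem_ne_zero_of_ne_bot hk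
    exact ⟨v, hv0, fun i => congrFun (LinearMap.mem_ker.1 hv) i⟩
  · have hi : Function.Injective (LinearMap.pi φ) := by
      rw [← LinearMap.ker_eq_bot, LinearMap.ker_eq_bot']
      exact fun v hv => hinj v fun i => congrFun hv i
    have hle := LinearMap.finrank_le_finrank_of_injective hi
    have heq : Module.finrank ℝ V = Module.finrank ℝ (Fin t → ℝ) := by
      rw [hfin] at hle ⊢
      exact le_antisymm hle h
    obtain ⟨v, hv⟩ := (LinearMap.injective_iff_surjective_of_finrank_eq_finrank heq).1 hi r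
    exact ⟨v, fun i => congrFun hv i⟩

end Pool.Agent.Lib.MP_9f84a9_co
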